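import Mathlib

/-!
Decision trees over a world with hidden witnesses, and the families of partial worlds (the objects)
that one test produces.
-/

set_option linter.unusedSectionVars false

namespace Pool.Agent.H.MP_7934a7_lc.helper50

open Finset

variable {P W : Type*}

/-- decision trees; a question is a cell (position, witness) -/
inductive Tree (P W : Type*) : Type _
  | out (b : Bool) : Tree P W
  | ask (p : P) (w : W) (next : Option Bool → Tree P W) : Tree P W

/-- value of a tree in the world with locations `l` and values `v` -/
def Tree.run [DecidableEq W] (l : P → W) (v : P → Bool) : Tree P W → Bool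
  | .out b => b
  | .ask p w next => (next (if w = l p then some (v p) else none)).run l v

/-- the depth is at most the given number -/
def Tree.AtMost : Tree P W → ℕ → Prop
  | .out _, _ => True
  | .ask _ _ _, 0 => False
  | .ask _ _ next, k + 1 => ∀ a, (next a).AtMost k

/-- partial worlds -/
abbrev PW (P W : Type*) := P → Option (W × Bool)

/-- the locations of `k` are those of `l` -/
def In (k : PW P W) (l : P → W) : Prop := ∀ p w b, k p = some (w, b) → l p = w

/-- the values of `k` are those of `v` -/
def Agree (k : PW P W) (v : P → Bool) : Prop := ∀ p w b, k p = some (w, b) → v p = b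

/-- `k'` extends `k` -/
def Ext (k k' : PW P W) : Prop := ∀ p a, k p = some a → k' p = some a

lemma Ext.refl (k : PW P W) : Ext k k := fun _ _ h => h

lemma Ext.trans {k₁ k₂ k₃ : PW P W} (h : Ext k₁ k₂) (h' : Ext k₂ k₃) : Ext k₁ k₃ :=
  fun p a ha => h' p a (h p a ha)

/-- all partial worlds that can arise from `k` when the tree gives `t` -/
def ext [DecidableEq P] [DecidableEq W] (t : Bool) : Tree P W → PW P W → ℕ → List (PW P W × ℕ)
  | .out b, k, n => if b = t then [(k, n)] else []
  | .ask p w next, k, n =>
    match k p with
    | some (w', b) => ext t (next (if w = w' then some b else none)) k n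
    | none => ext t (next none) k n ++
        (ext t (next (some true)) (Function.update k p (some (w, true))) (n + 1) ++
          ext t (next (some false)) (Function.update k p (some (w, false))) (n + 1))

/-- those that arise when the locations are `l` -/
def extL [DecidableEq P] [DecidableEq W] (l : P → W) (t : Bool) :
    Tree P W → PW P W → ℕ → List (PW P W × ℕ)
  | .out b, k, n => if b = t then [(k, n)] else []
  | .ask p w next, k, n =>
    match k p with
    | some (w', b) => extL l t (next (if w = w' then some b else none)) k n
    | none => if w = l p then
          (extL l t (next (some true)) (Function.update k p (some (w, true))) (n + 1) ++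
          extL l t (next (some false)) (Function.update k p (some (w, false))) (n + 1))
        else extL l t (next none) k n

section
variable [DecidableEq P] [DecidableEq W]

lemma Ext_update {k : PW P W} {p : P} (h : k p = none) (a : W × Bool) :
    Ext k (Function.update k p (some a)) := by
  intro q b hq
  by_cases hqp : q = p
  · subst hqp; rw [h] at hq; exact absurd hq (by simp)
  · rw [Function.update_of_ne hqp]; exact hq

lemma extL_mem (l : P → W) (t : Bool) (T : Tree P W) : ∀ (k : PW P W) (n : ℕ) (o : PW P W × ℕ),
    o ∈ extL l t T k n → o ∈ ext t T k n := by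
  induction T with
  | out b => intro k n o h; exact h
  | ask p w next ih =>
    intro k n o h
    unfold extL at h
    unfold ext
    split at h
    · exact ih _ _ _ _ h
    · simp only [List.mem_append]
      split at h
      · simp only [List.mem_append] at h
        rcases h with h | h
        · exact Or.inr (Or.inl (ih _ _ _ _ h))
        · exact Or.inr (Or.inr (ih _ _ _ _ h))
      · exact Or.inl (ih _ _ _ _ h)

lemma ext_ge (t : Bool) (T : Tree P W) : ∀ (k : PW P W) (n : ℕ) (o : PW P W × ℕ),
    o ∈ ext t T k n → Ext k o.1 := by
  induction T with
  | out b =>
    intro k n o h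
    unfold ext at h
    split at h
    · simp only [List.mem_singleton] at h
      subst h
      exact Ext.refl _
    · exact absurd h (by simp)
  | ask p w next ih =>
    intro k n o h
    unfold ext at h
    split at h
    · exact ih _ _ _ _ h
    · rename_i hk
      simp only [List.mem_append] at h
      rcases h with h | h | h
      · exact ih _ _ _ _ h
      · exact (Ext_update hk _).trans (ih _ _ _ _ h)
      · exact (Ext_update hk _).trans (ih _ _ _ _ h)

lemma In_update {k : PW P W} {l : P → W} (h : In k l) (p : P) (b : Bool) {w : W} (hw : w = l p) :
    In (Function.update k p (some (w, b))) l := by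
  intro q w' b' hq
  by_cases hqp : q = p
  · subst hqp
    rw [Function.update_self] at hq
    simp only [Option.some.injEq, Prod.mk.injEq] at hq
    rw [← hq.1, hw]
  · rw [Function.update_of_ne hqp] at hq
    exact h _ _ _ hq

lemma Agree_update {k : PW P W} {v : P → Bool} (h : Agree k v) (p : P) (w : W) :
    Agree (Function.update k p (some (w, v p))) v := by
  intro q w' b' hq
  by_cases hqp : q = p
  · subst hqp
    rw [Function.update_self] at hq
    simp only [Option.some.injEq, Prod.mk.injEq] at hq
    exact hq.2
  · rw [Function.update_of_ne hqp] at hq
    exact h _ _ _ hq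

lemma extL_In (l : P → W) (t : Bool) (T : Tree P W) : ∀ (k : PW P W) (n : ℕ) (o : PW P W × ℕ),
    In k l → o ∈ extL l t T k n → In o.1 l := by
  induction T with
  | out b =>
    intro k n o hk h
    unfold extL at h
    split at h
    · simp only [List.mem_singleton] at h
      subst h
      exact hk
    · exact absurd h (by simp)
  | ask p w next ih =>
    intro k n o hk h
    unfold extL at h
    split at h
    · exact ih _ _ _ _ hk h
    · split at h
      · rename_i hw
        simp only [List.mem_append] at h
        rcases h with h | h
        · exact ih _ _ _ _ (In_update hk p _ hw) h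
        · exact ih _ _ _ _ (In_update hk p _ hw) h
      · exact ih _ _ _ _ hk h

/-- the answer known from `k` is the true one -/
lemma answer_eq {k : PW P W} {l : P → W} {v : P → Bool} (hl : In k l) (hv : Agree k v) {p : P}
    {w' : W} {b : Bool} (hk : k p = some (w', b)) (w : W) :
    (if w = w' then some b else none) = (if w = l p then some (v p) else none) := by
  rw [hl _ _ _ hk, hv _ _ _ hk]

lemma extL_cov (l : P → W) (v : P → Bool) (t : Bool) (T : Tree P W) : ∀ (k : PW P W) (n : ℕ),
    In k l → Agree k v → T.run l v = t → ∃ o ∈ extL l t T k n, Agree o.1 v := by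
  induction T with
  | out b =>
    intro k n hk hv h
    refine ⟨(k, n), ?_, hv⟩
    unfold extL
    unfold Tree.run at h
    rw [if_pos h]
    simp
  | ask p w next ih =>
    intro k n hk hv h
    unfold Tree.run at h
    unfold extL
    split
    · rename_i w' b hkp
      rw [← answer_eq hk hv hkp w] at h
      exact ih _ _ _ hk hv h
    · rename_i hkp
      by_cases hw : w = l p
      · rw [if_pos hw] at h
        rw [if_pos hw]
        obtain ⟨o, ho, ho'⟩ := ih _ (Function.update k p (some (w, v p))) (n + 1)
          (In_update hk p _ hw) (Agree_update hv p w) h
        refine ⟨o, ?_, ho'⟩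
        simp only [List.mem_append]
        cases hvp : v p
        · rw [hvp] at ho; exact Or.inr ho
        · rw [hvp] at ho; exact Or.inl ho
      · rw [if_neg hw] at h
        rw [if_neg hw]
        exact ih _ _ _ hk hv h

/-- total weight of a list of objects -/
noncomputable def wt (L : List (PW P W × ℕ)) : ℝ := (L.map (fun o => (1 / 8 : ℝ) ^ o.2)).sum

lemma wt_append (L L' : List (PW P W × ℕ)) : wt (L ++ L') = wt L + wt L' := by
  unfold wt; rw [List.map_append, List.sum_append]

lemma wt_nonneg (L : List (PW P W × ℕ)) : 0 ≤ wt L := by
  unfold wt
  apply List.sum_nonneg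
  intro x hx
  simp only [List.mem_map] at hx
  obtain ⟨o, -, rfl⟩ := hx
  positivity

lemma wt_extL_le (l : P → W) (t : Bool) (T : Tree P W) : ∀ (k : PW P W) (n : ℕ),
    wt (extL l t T k n) ≤ (1 / 8 : ℝ) ^ n := by
  induction T with
  | out b =>
    intro k n
    unfold extL
    split
    · simp [wt]
    · simp only [wt, List.map_nil, List.sum_nil]; positivity
  | ask p w next ih =>
    intro k n
    unfold extL
    split
    · exact ih _ _ _
    · split
      · rw [wt_append]
        have h1 := ih (some true) (Function.update k p (some (w, true))) (n + 1)
        have h2 := ih (some false) (Function.update k p (some (w, false))) (n + 1)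
        have h3 : (1 / 8 : ℝ) ^ (n + 1) = (1 / 8) ^ n * (1 / 8) := pow_succ _ _
        have h4 : (0 : ℝ) ≤ (1 / 8) ^ n := by positivity
        linarith
      · exact ih _ _ _

/-- when the tree does not give `t` in the world with default values, every object has a find -/
lemma wt_extL_le_quarter (l : P → W) (v : P → Bool) (t : Bool) (T : Tree P W) :
    ∀ (k : PW P W) (n : ℕ), In k l → Agree k v → T.run l v ≠ t →
    wt (extL l t T k n) ≤ (1 / 8 : ℝ) ^ n / 4 := by
  induction T with
  | out b =>
    intro k n hk hv h
    unfold Tree.run at h
    unfold extL
    rw [if_neg h]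
    simp only [wt, List.map_nil, List.sum_nil]; positivity
  | ask p w next ih =>
    intro k n hk hv h
    unfold Tree.run at h
    unfold extL
    split
    · rename_i w' b hkp
      rw [← answer_eq hk hv hkp w] at h
      exact ih _ _ _ hk hv h
    · rename_i hkp
      by_cases hw : w = l p
      · rw [if_pos hw, wt_append]
        have h1 := wt_extL_le l t (next (some true)) (Function.update k p (some (w, true))) (n + 1)
        have h2 := wt_extL_le l t (next (some false)) (Function.update k p (some (w, false))) (n + 1)
        have h3 : (1 / 8 : ℝ) ^ (n + 1) = (1 / 8) ^ n * (1 / 8) := pow_succ _ _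
        linarith
      · rw [if_neg hw] at h
        rw [if_neg hw]
        exact ih _ _ _ hk hv h

end

section majorant
variable [Fintype P] [DecidableEq P] [DecidableEq W]

/-- the positions where `k` is defined -/
def dom (k : PW P W) : Finset P := univ.filter (fun p => (k p).isSome)

lemma mem_dom {k : PW P W} {p : P} : p ∈ dom k ↔ ∃ a, k p = some a := by
  simp [dom, Option.isSome_iff_exists]

lemma dom_update (k : PW P W) (p : P) (a : W × Bool) :
    dom (Function.update k p (some a)) = insert p (dom k) := by
  ext q
  rw [mem_insert, mem_dom, mem_dom]
  by_cases h : q = p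
  · subst h; simp
  · rw [Function.update_of_ne h]; simp [h]

/-- majorant of a list of objects: `x` per find, `B` per position not in `C` -/
noncomputable def maj (x B : ℝ) (C : Finset P) (L : List (PW P W × ℕ)) : ℝ :=
  (L.map (fun o => x ^ o.2 * B ^ (dom o.1 \ C).card)).sum

lemma maj_append (x B : ℝ) (C : Finset P) (L L' : List (PW P W × ℕ)) :
    maj x B C (L ++ L') = maj x B C L + maj x B C L' := by
  unfold maj; rw [List.map_append, List.sum_append]

lemma maj_ext_le {x B : ℝ} (hx : 0 ≤ x) (hB : 0 ≤ B) (C : Finset P) (t : Bool) (T : Tree P W) :
    ∀ (d : ℕ) (k : PW P W) (n : ℕ), T.AtMost d → C ⊆ dom k →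
    maj x B C (ext t T k n) ≤ (1 + 2 * x * B) ^ d * (x ^ n * B ^ (dom k \ C).card) := by
  have hxB : 0 ≤ 2 * x * B := by positivity
  induction T with
  | out b =>
    intro d k n _ _
    have h1 : (1 : ℝ) ≤ (1 + 2 * x * B) ^ d := one_le_pow₀ (by linarith)
    have h2 : 0 ≤ x ^ n * B ^ (dom k \ C).card := by positivity
    unfold ext
    split
    · simp only [maj, List.map_cons, List.map_nil, List.sum_cons, List.sum_nil, add_zero]
      nlinarith
    · simp only [maj, List.map_nil, List.sum_nil]
      positivity
  | ask p w next ih =>
    intro d k n hd hC
    cases d with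
    | zero => exact absurd hd (by simp [Tree.AtMost])
    | succ d =>
      have hd' : ∀ a, (next a).AtMost d := hd
      have hpow : (1 + 2 * x * B) ^ d ≤ (1 + 2 * x * B) ^ (d + 1) :=
        pow_le_pow_right₀ (by linarith) (Nat.le_succ d)
      have h2 : 0 ≤ x ^ n * B ^ (dom k \ C).card := by positivity
      unfold ext
      split
      · exact le_trans (ih _ _ _ _ (hd' _) hC) (mul_le_mul_of_nonneg_right hpow h2)
      · rename_i hk
        have hp : p ∉ dom k := by
          rw [mem_dom]; rintro ⟨a, ha⟩; rw [hk] at ha; exact absurd ha (by simp)
        have hpC : p ∉ C := fun h => hp (hC h)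
        have hcard : ∀ a : W × Bool,
            (dom (Function.update k p (some a)) \ C).card = (dom k \ C).card + 1 := by
          intro a
          rw [dom_update, insert_sdiff_of_notMem _ hpC, card_insert_of_notMem]
          simp [hp]
        have hsub : ∀ a : W × Bool, C ⊆ dom (Function.update k p (some a)) := by
          intro a
          rw [dom_update]
          exact hC.trans (subset_insert _ _)
        rw [maj_append, maj_append]
        have h0 := ih none d k n (hd' _) hC
        have ht := ih (some true) d (Function.update k p (some (w, true))) (n + 1) (hd' _) (hsub _)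
        have hf := ih (some false) d (Function.update k p (some (w, false))) (n + 1) (hd' _)
          (hsub _)
        rw [hcard] at ht hf
        have e : (1 + 2 * x * B) ^ (d + 1) * (x ^ n * B ^ (dom k \ C).card)
            = (1 + 2 * x * B) ^ d * (x ^ n * B ^ (dom k \ C).card)
              + ((1 + 2 * x * B) ^ d * (x ^ (n + 1) * B ^ ((dom k \ C).card + 1))
              + (1 + 2 * x * B) ^ d * (x ^ (n + 1) * B ^ ((dom k \ C).card + 1))) := by
          ring
        rw [e]
        linarith

end majorant

end Pool.Agent.H.MP_7934a7_lc.helper50
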