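import Mathlib
import Pool.Agent.H.MP_7934a7_lc.helper50.Trees

/-!
Spread sets of location maps, and the bound `Sup` for all later plantings.
-/

set_option linter.unusedSectionVars false

namespace Pool.Agent.H.MP_7934a7_lc.helper50

open Finset

variable {P W : Type*} [Fintype P] [DecidableEq P] [DecidableEq W]

/-- objects: a string, a partial world, the number of finds -/
abbrev Obj (S P W : Type*) := S × PW P W × ℕ

/-- location of `k` at `p` is that of `l` (true where `k` is undefined) -/
def LocAt (k : PW P W) (l : P → W) (p : P) : Prop := ∀ w b, k p = some (w, b) → l p = w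

open Classical in
/-- spread outside of `C` -/
def Spread (b : ℝ) (C : Finset P) (Ω : Finset (P → W)) : Prop :=
  ∀ s : Finset P, Disjoint s C → ∀ g : P → W,
    ((Ω.filter (fun l => ∀ p ∈ s, l p = g p)).card : ℝ) * b ^ s.card ≤ Ω.card

open Classical in
/-- bound for the majorant of the objects along `l` after any planting -/
noncomputable def Sup {S : Type*} (x B : ℝ) (C : Finset P) (O : List (Obj S P W)) (l : P → W) : ℝ :=
  (O.map (fun o => x ^ o.2.2 * ∑ s ∈ (dom o.2.1 \ C).powerset,
    if ∀ p ∈ s, LocAt o.2.1 l p then B ^ ((dom o.2.1 \ C).card - s.card) else 0)).sum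

/-- majorant of a list of objects -/
noncomputable def majO {S : Type*} (x B : ℝ) (C : Finset P) (O : List (Obj S P W)) : ℝ :=
  (O.map (fun o => x ^ o.2.2 * B ^ (dom o.2.1 \ C).card)).sum

lemma Sup_nonneg {S : Type*} {x B : ℝ} (hx : 0 ≤ x) (hB : 0 ≤ B) (C : Finset P)
    (O : List (Obj S P W)) (l : P → W) : 0 ≤ Sup x B C O l := by
  unfold Sup
  apply List.sum_nonneg
  intro y hy
  simp only [List.mem_map] at hy
  obtain ⟨o, -, rfl⟩ := hy
  apply mul_nonneg (pow_nonneg hx _)
  apply sum_nonneg
  intro s _
  split
  · positivity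
  · exact le_refl _

/-- sum over a finset and a list -/
lemma sum_list_comm {ι α : Type*} (A : Finset ι) (L : List α) (f : ι → α → ℝ) :
    ∑ i ∈ A, (L.map (fun a => f i a)).sum = (L.map (fun a => ∑ i ∈ A, f i a)).sum := by
  induction L with
  | nil => simp
  | cons a L ih => simp only [List.map_cons, List.sum_cons, sum_add_distrib, ih]

lemma sum_map_le {α : Type*} (L : List α) (f g : α → ℝ) (h : ∀ a ∈ L, f a ≤ g a) :
    (L.map f).sum ≤ (L.map g).sum := by
  induction L with
  | nil => simp
  | cons a L ih =>
    simp only [List.map_cons, List.sum_cons]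
    have h1 := h a (by simp)
    have h2 := ih (fun b hb => h b (by simp [hb]))
    linarith

/-- for one object: the average of the weights is at most the majorant with `B + 1/b` -/
lemma avg_one {b B : ℝ} (hb : 0 < b) (hB : 0 ≤ B) {C : Finset P} {Ω : Finset (P → W)}
    (hΩ : Spread b C Ω) (k : PW P W) :
    ∑ l ∈ Ω, ∑ s ∈ (dom k \ C).powerset, (open Classical in
      if ∀ p ∈ s, LocAt k l p then B ^ ((dom k \ C).card - s.card) else 0)
      ≤ Ω.card * (1 / b + B) ^ (dom k \ C).card := by
  classical
  rw [sum_comm]
  calc _ ≤ ∑ s ∈ (dom k \ C).powerset,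
        (Ω.card : ℝ) * ((1 / b) ^ s.card * B ^ ((dom k \ C).card - s.card)) := by
        apply sum_le_sum
        intro s hs
        rw [mem_powerset] at hs
        rw [← sum_filter, sum_const, nsmul_eq_mul]
        -- a map with the locations of `k` on `s`
        have hsC : Disjoint s C :=
          disjoint_left.mpr (fun p hp => (mem_sdiff.mp (hs hp)).2)
        have key : ((Ω.filter (fun l => ∀ p ∈ s, LocAt k l p)).card : ℝ)
            ≤ Ω.card * (1 / b) ^ s.card := by
          rcases (Ω.filter (fun l => ∀ p ∈ s, LocAt k l p)).eq_empty_or_nonempty with h | ⟨g, hg⟩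
          · rw [h]; simp only [card_empty, Nat.cast_zero]; positivity
          · have hsub : (Ω.filter (fun l => ∀ p ∈ s, LocAt k l p))
                ⊆ Ω.filter (fun l => ∀ p ∈ s, l p = g p) := by
              intro l hl
              rw [mem_filter] at hl ⊢
              refine ⟨hl.1, fun p hp => ?_⟩
              obtain ⟨⟨w, c⟩, ha⟩ := mem_dom.mp (mem_sdiff.mp (hs hp)).1
              rw [hl.2 p hp _ _ ha, (mem_filter.mp hg).2 p hp _ _ ha]
            have h1 := hΩ s hsC g
            have h2 : ((Ω.filter (fun l => ∀ p ∈ s, LocAt k l p)).card : ℝ)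
                ≤ ((Ω.filter (fun l => ∀ p ∈ s, l p = g p)).card : ℝ) := by
              exact_mod_cast card_le_card hsub
            rw [one_div, inv_pow, ← div_eq_mul_inv, le_div_iff₀ (by positivity)]
            exact le_trans (mul_le_mul_of_nonneg_right h2 (by positivity)) h1
        calc _ ≤ (Ω.card * (1 / b) ^ s.card) * B ^ ((dom k \ C).card - s.card) :=
              mul_le_mul_of_nonneg_right key (by positivity)
          _ = _ := by ring
    _ = _ := by
        rw [← mul_sum, sum_pow_mul_eq_add_pow]

lemma avg_Sup {S : Type*} {b B x : ℝ} (hb : 0 < b) (hB : 0 ≤ B) (hx : 0 ≤ x) {C : Finset P}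
    {Ω : Finset (P → W)} (hΩ : Spread b C Ω) (O : List (Obj S P W)) :
    ∑ l ∈ Ω, Sup x B C O l ≤ Ω.card * majO x (1 / b + B) C O := by
  classical
  unfold Sup majO
  rw [sum_list_comm, ← List.sum_map_mul_left]
  apply sum_map_le
  intro o _
  rw [← mul_sum]
  have h := avg_one hb hB hΩ o.2.1
  calc _ ≤ x ^ o.2.2 * (Ω.card * (1 / b + B) ^ (dom o.2.1 \ C).card) :=
        mul_le_mul_of_nonneg_left h (pow_nonneg hx _)
    _ = _ := by ring

/-- compatible partial worlds -/
def Compat (k c : PW P W) : Prop := ∀ p a a', k p = some a → c p = some a' → a = a'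

/-- `k` together with the planted `c` -/
def merge (k c : PW P W) : PW P W := fun p => (c p).or (k p)

lemma merge_ext_right (k c : PW P W) : Ext c (merge k c) := by
  intro p a h
  simp [merge, h]

lemma merge_ext_left {k c : PW P W} (h : Compat k c) : Ext k (merge k c) := by
  intro p a hp
  unfold merge
  cases hc : c p with
  | none => simp [hp]
  | some a' => rw [h p a a' hp hc]; simp

lemma dom_merge (k c : PW P W) : dom (merge k c) = dom c ∪ dom k := by
  ext p
  simp only [dom, mem_filter, mem_univ, true_and, mem_union, merge]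
  cases hc : c p <;> simp

open Classical in
/-- plant `c`: keep the compatible objects -/
noncomputable def plant {S : Type*} (c : PW P W) (O : List (Obj S P W)) : List (Obj S P W) :=
  (O.filter (fun o => Compat o.2.1 c)).map (fun o => (o.1, merge o.2.1 c, o.2.2))

lemma mem_plant {S : Type*} {c : PW P W} {O : List (Obj S P W)} {o : Obj S P W} :
    o ∈ plant c O ↔ ∃ o' ∈ O, Compat o'.2.1 c ∧ o = (o'.1, merge o'.2.1 c, o'.2.2) := by
  classical
  unfold plant
  simp only [List.mem_map, List.mem_filter, decide_eq_true_eq]
  constructor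
  · rintro ⟨o', ⟨h1, h2⟩, h3⟩; exact ⟨o', h1, h2, h3.symm⟩
  · rintro ⟨o', h1, h2, h3⟩; exact ⟨o', ⟨h1, h2⟩, h3.symm⟩

lemma sum_filter_map_le {α : Type*} (L : List α) (q : α → Bool) (f g : α → ℝ)
    (h : ∀ a ∈ L, q a = true → f a ≤ g a) (hg : ∀ a ∈ L, 0 ≤ g a) :
    ((L.filter q).map f).sum ≤ (L.map g).sum := by
  induction L with
  | nil => simp
  | cons a L ih =>
    have ih' := ih (fun b hb => h b (by simp [hb])) (fun b hb => hg b (by simp [hb]))
    by_cases hq : q a = true
    · rw [List.filter_cons_of_pos hq]
      simp only [List.map_cons, List.sum_cons]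
      have := h a (by simp) hq
      linarith
    · rw [List.filter_cons_of_neg hq]
      simp only [List.map_cons, List.sum_cons]
      have := hg a (by simp)
      linarith

/-- the majorant after planting along `l` is at most `Sup` -/
lemma majO_plant_le {S : Type*} {x B : ℝ} (hx : 0 ≤ x) (hB : 0 ≤ B) {C : Finset P}
    {c : PW P W} (hC : C ⊆ dom c) {l : P → W} (hc : In c l) (O : List (Obj S P W)) :
    majO x B (dom c) (plant c O) ≤ Sup x B C O l := by
  classical
  unfold majO plant Sup
  rw [List.map_map]
  apply sum_filter_map_le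
  · intro o _ ho
    simp only [decide_eq_true_eq] at ho
    simp only [Function.comp]
    apply mul_le_mul_of_nonneg_left _ (pow_nonneg hx _)
    set s : Finset P := (dom o.2.1 ∩ dom c) \ C with hs
    have hsmem : s ∈ (dom o.2.1 \ C).powerset := by
      rw [mem_powerset, hs]
      exact sdiff_subset_sdiff inter_subset_left (Subset.refl _)
    have hcond : ∀ p ∈ s, LocAt o.2.1 l p := by
      intro p hp w b hk
      have hpc : p ∈ dom c := (mem_inter.mp (mem_sdiff.mp hp).1).2
      obtain ⟨⟨w', b'⟩, hcp⟩ := mem_dom.mp hpc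
      have := ho p _ _ hk hcp
      rw [this] at hk
      have h1 := hc p _ _ hcp
      simp only [Prod.mk.injEq] at this
      rw [this.1]; exact h1
    have hcard : (dom (merge o.2.1 c) \ dom c).card = (dom o.2.1 \ C).card - s.card := by
      rw [dom_merge, union_sdiff_left]
      have h1 : dom o.2.1 \ dom c = (dom o.2.1 \ C) \ s := by
        ext p
        simp only [hs, mem_sdiff, mem_inter, not_and, not_not]
        constructor
        · rintro ⟨h1, h2⟩
          exact ⟨⟨h1, fun h => h2 (hC h)⟩, fun h => absurd h.2 h2⟩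
        · rintro ⟨⟨h1, h2⟩, h3⟩
          exact ⟨h1, fun h => h2 (h3 ⟨h1, h⟩)⟩
      rw [h1, card_sdiff_of_subset (mem_powerset.mp hsmem)]
    calc B ^ (dom (merge o.2.1 c) \ dom c).card
        = (if ∀ p ∈ s, LocAt o.2.1 l p then B ^ ((dom o.2.1 \ C).card - s.card) else 0) := by
          rw [if_pos hcond, hcard]
      _ ≤ _ := by
          apply single_le_sum (f := fun s => if ∀ p ∈ s, LocAt o.2.1 l p then
            B ^ ((dom o.2.1 \ C).card - s.card) else 0) _ hsmem
          intro t _
          split
          · positivity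
          · exact le_refl _
  · intro o _
    apply mul_nonneg (pow_nonneg hx _)
    apply sum_nonneg
    intro s _
    split
    · positivity
    · exact le_refl _

end Pool.Agent.H.MP_7934a7_lc.helper50
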