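import Mathlib
import Pool.Agent.H.MP_7934a7_lc.helper50.Sup

/-!
The dichotomy for one location map, and the effect of one test.
-/

set_option linter.unusedSectionVars false

namespace Pool.Agent.H.MP_7934a7_lc.helper50

open Finset

lemma list_sum_comm {α β : Type*} (L₁ : List α) (L₂ : List β) (f : α → β → ℝ) :
    (L₁.map (fun a => (L₂.map (fun b => f a b)).sum)).sum
      = (L₂.map (fun b => (L₁.map (fun a => f a b)).sum)).sum := by
  induction L₁ with
  | nil => simp
  | cons a L ih =>
    simp only [List.map_cons, List.sum_cons]
    rw [ih, ← List.sum_map_add]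

variable {S P W : Type*} [Fintype P] [DecidableEq P] [DecidableEq W]

/-- weight of a list of objects -/
noncomputable def wtO (O : List (Obj S P W)) : ℝ := (O.map (fun o => (1 / 8 : ℝ) ^ o.2.2)).sum

lemma wtO_pos {O : List (Obj S P W)} (h : O ≠ []) : 0 < wtO O := by
  unfold wtO
  have := List.sum_lt_sum_of_ne_nil h (fun _ : Obj S P W => (0 : ℝ))
    (fun o : Obj S P W => (1 / 8 : ℝ) ^ o.2.2) (fun o _ => by positivity)
  simpa using this

lemma wtO_nonneg (O : List (Obj S P W)) : 0 ≤ wtO O := by
  unfold wtO
  apply List.sum_nonneg
  intro x hx
  simp only [List.mem_map] at hx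
  obtain ⟨o, -, rfl⟩ := hx
  positivity

/-- the objects after a test, all locations -/
def testG (t : Bool) (F : S → Tree P W) (O : List (Obj S P W)) : List (Obj S P W) :=
  O.flatMap (fun o => (ext t (F o.1) o.2.1 o.2.2).map (fun q => (o.1, q)))

/-- the objects after a test, locations `l` -/
def testL (l : P → W) (t : Bool) (F : S → Tree P W) (O : List (Obj S P W)) :
    List (Obj S P W) :=
  O.flatMap (fun o => (extL l t (F o.1) o.2.1 o.2.2).map (fun q => (o.1, q)))

lemma mem_testG {t : Bool} {F : S → Tree P W} {O : List (Obj S P W)} {o : Obj S P W} :
    o ∈ testG t F O ↔ ∃ o' ∈ O, o.1 = o'.1 ∧ o.2 ∈ ext t (F o'.1) o'.2.1 o'.2.2 := by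
  unfold testG
  simp only [List.mem_flatMap, List.mem_map]
  constructor
  · rintro ⟨o', h1, q, h2, rfl⟩; exact ⟨o', h1, rfl, h2⟩
  · rintro ⟨o', h1, h2, h3⟩
    exact ⟨o', h1, o.2, h3, by rw [← h2]⟩

lemma mem_testL {l : P → W} {t : Bool} {F : S → Tree P W} {O : List (Obj S P W)} {o : Obj S P W} :
    o ∈ testL l t F O ↔ ∃ o' ∈ O, o.1 = o'.1 ∧ o.2 ∈ extL l t (F o'.1) o'.2.1 o'.2.2 := by
  unfold testL
  simp only [List.mem_flatMap, List.mem_map]
  constructor
  · rintro ⟨o', h1, q, h2, rfl⟩; exact ⟨o', h1, rfl, h2⟩
  · rintro ⟨o', h1, h2, h3⟩
    exact ⟨o', h1, o.2, h3, by rw [← h2]⟩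

lemma majO_testG_le {x B : ℝ} (hx : 0 ≤ x) (hB : 0 ≤ B) {C : Finset P} (t : Bool)
    {F : S → Tree P W} {d : ℕ} (hF : ∀ a, (F a).AtMost d) {O : List (Obj S P W)}
    (hO : ∀ o ∈ O, C ⊆ dom o.2.1) :
    majO x B C (testG t F O) ≤ (1 + 2 * x * B) ^ d * majO x B C O := by
  induction O with
  | nil => simp [testG, majO]
  | cons o O ih =>
    have ih' := ih (fun o' ho' => hO o' (by simp [ho']))
    have h1 := maj_ext_le hx hB C t (F o.1) d o.2.1 o.2.2 (hF _) (hO o (by simp))
    have e1 : majO x B C (testG t F (o :: O))
        = maj x B C (ext t (F o.1) o.2.1 o.2.2) + majO x B C (testG t F O) := by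
      unfold majO testG maj
      rw [List.flatMap_cons, List.map_append, List.sum_append, List.map_map]
      rfl
    have e2 : majO x B C (o :: O) = x ^ o.2.2 * B ^ (dom o.2.1 \ C).card + majO x B C O := by
      unfold majO
      rw [List.map_cons, List.sum_cons]
    rw [e1, e2, mul_add]
    exact add_le_add h1 ih'

/-- combined values of two partial worlds, default `true` -/
def vstar (k' k : PW P W) : P → Bool := fun p => (((k' p).or (k p)).map Prod.snd).getD true

lemma vstar_comm {k k' : PW P W} (h : Compat k k') : vstar k' k = vstar k k' := by
  funext p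
  unfold vstar
  cases hk : k p with
  | none => cases hk' : k' p <;> simp
  | some a =>
    cases hk' : k' p with
    | none => simp
    | some a' => rw [h p a a' hk hk']

lemma Compat.symm {k k' : PW P W} (h : Compat k k') : Compat k' k :=
  fun p a a' ha ha' => (h p a' a ha' ha).symm

/-- tree for the string `a` of side `s` against the string `b` of the other side -/
def side (T : S → S → Tree P W) (s : Bool) (a b : S) : Tree P W := if s then T a b else T b a

lemma side_not (T : S → S → Tree P W) (s : Bool) (a b : S) : side T (!s) b a = side T s a b := by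
  cases s <;> simp [side]

/-- `o` survives the test of `o'` without a find (in the world with default values) -/
def Surv (T : S → S → Tree P W) (l : P → W) (s : Bool) (o o' : Obj S P W) : Prop :=
  Compat o.2.1 o'.2.1 ∧ (side T s o.1 o'.1).run l (vstar o'.2.1 o.2.1) = s

lemma not_both_surv (T : S → S → Tree P W) (l : P → W) (o o' : Obj S P W)
    (h : Surv T l true o o') (h' : Surv T l false o' o) : False := by
  obtain ⟨h1, h2⟩ := h
  obtain ⟨h3, h4⟩ := h'
  have e : side T false o'.1 o.1 = side T true o.1 o'.1 := side_not T true o.1 o'.1
  rw [e, ← vstar_comm h1] at h4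
  rw [h2] at h4
  exact absurd h4 (by simp)

open Classical in
lemma dichotomy (T : S → S → Tree P W) (l : P → W) (R : Bool → List (Obj S P W))
    (hR : ∀ s, R s ≠ []) :
    ∃ s : Bool, ∃ o' ∈ R (!s),
      ((R s).map (fun o => if Surv T l s o o' then (1 / 8 : ℝ) ^ o.2.2 else 0)).sum
        ≤ wtO (R s) / 2 := by
  by_contra hcon
  push Not at hcon
  have h1 := hcon true
  have h2 := hcon false
  simp only [Bool.not_true, Bool.not_false] at h1 h2
  set w : Obj S P W → ℝ := fun o => (1 / 8 : ℝ) ^ o.2.2 with hw
  have hwpos : ∀ o, 0 < w o := fun o => by rw [hw]; positivity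
  -- first double sum
  have s1 : wtO (R true) * wtO (R false) / 2 <
      ((R false).map (fun o' => w o' * ((R true).map (fun o =>
        if Surv T l true o o' then (1 / 8 : ℝ) ^ o.2.2 else 0)).sum)).sum := by
    have e : wtO (R true) * wtO (R false) / 2
        = ((R false).map (fun o' => w o' * (wtO (R true) / 2))).sum := by
      rw [List.sum_map_mul_right]
      unfold wtO
      ring
    rw [e]
    exact List.sum_lt_sum_of_ne_nil (hR false) _ _
      (fun o' ho' => mul_lt_mul_of_pos_left (h1 o' ho') (hwpos o'))
  have s2 : wtO (R true) * wtO (R false) / 2 <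
      ((R true).map (fun o => w o * ((R false).map (fun o' =>
        if Surv T l false o' o then (1 / 8 : ℝ) ^ o'.2.2 else 0)).sum)).sum := by
    have e : wtO (R true) * wtO (R false) / 2
        = ((R true).map (fun o => w o * (wtO (R false) / 2))).sum := by
      rw [List.sum_map_mul_right]
      unfold wtO
      ring
    rw [e]
    exact List.sum_lt_sum_of_ne_nil (hR true) _ _
      (fun o ho => mul_lt_mul_of_pos_left (h2 o ho) (hwpos o))
  -- rewrite both as sums over pairs
  have e1 : ((R false).map (fun o' => w o' * ((R true).map (fun o =>
        if Surv T l true o o' then (1 / 8 : ℝ) ^ o.2.2 else 0)).sum)).sum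
      = ((R true).map (fun o => ((R false).map (fun o' =>
        if Surv T l true o o' then w o * w o' else 0)).sum)).sum := by
    rw [list_sum_comm]
    congr 1
    apply List.map_congr_left
    intro o' _
    rw [← List.sum_map_mul_left]
    congr 1
    apply List.map_congr_left
    intro o _
    by_cases h : Surv T l true o o'
    · rw [if_pos h, if_pos h, hw]; ring
    · rw [if_neg h, if_neg h, mul_zero]
  have e2 : ((R true).map (fun o => w o * ((R false).map (fun o' =>
        if Surv T l false o' o then (1 / 8 : ℝ) ^ o'.2.2 else 0)).sum)).sum
      = ((R true).map (fun o => ((R false).map (fun o' =>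
        if Surv T l false o' o then w o * w o' else 0)).sum)).sum := by
    congr 1
    apply List.map_congr_left
    intro o _
    rw [← List.sum_map_mul_left]
    congr 1
    apply List.map_congr_left
    intro o' _
    by_cases h : Surv T l false o' o
    · rw [if_pos h, if_pos h]
    · rw [if_neg h, if_neg h, mul_zero]
  have e3 : ((R true).map (fun o => ((R false).map (fun o' =>
        if Surv T l true o o' then w o * w o' else 0)).sum)).sum
      + ((R true).map (fun o => ((R false).map (fun o' =>
        if Surv T l false o' o then w o * w o' else 0)).sum)).sum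
      ≤ wtO (R true) * wtO (R false) := by
    rw [← List.sum_map_add]
    have e4 : wtO (R true) * wtO (R false)
        = ((R true).map (fun o => ((R false).map (fun o' => w o * w o')).sum)).sum := by
      have : ∀ o : Obj S P W, ((R false).map (fun o' => w o * w o')).sum
          = w o * wtO (R false) := by
        intro o
        rw [List.sum_map_mul_left]
        rfl
      simp only [this]
      rw [List.sum_map_mul_right]
      rfl
    rw [e4]
    apply sum_map_le
    intro o _
    rw [← List.sum_map_add]
    apply sum_map_le
    intro o' _
    have hpos : 0 < w o * w o' := mul_pos (hwpos o) (hwpos o')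
    by_cases h : Surv T l true o o'
    · have h' : ¬ Surv T l false o' o := fun h' => not_both_surv T l o o' h h'
      rw [if_pos h, if_neg h', add_zero]
    · rw [if_neg h, zero_add]
      split
      · exact le_refl _
      · exact hpos.le
  rw [e1] at s1
  rw [e2] at s2
  linarith

open Classical in
/-- weight after planting `c` and the test of `o'`, when `c` has values `true` outside of `o'` -/
lemma wtO_testL_plant_le (T : S → S → Tree P W) (l : P → W) (s : Bool) (o' : Obj S P W)
    {c : PW P W} (hcl : In c l) (hc : Ext o'.2.1 c)
    (hdef : ∀ p w b, o'.2.1 p = none → c p = some (w, b) → b = true)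
    (O : List (Obj S P W)) (hO : ∀ o ∈ O, In o.2.1 l) :
    wtO (testL l s (fun a => side T s a o'.1) (plant c O))
      ≤ wtO O / 4 + 3 / 4 *
        (O.map (fun o => if Surv T l s o o' then (1 / 8 : ℝ) ^ o.2.2 else 0)).sum := by
  induction O with
  | nil => simp [testL, plant, wtO]
  | cons o O ih =>
    have ih' := ih (fun o₁ ho₁ => hO o₁ (by simp [ho₁]))
    have hol := hO o (by simp)
    have e2 : wtO (o :: O) = (1 / 8 : ℝ) ^ o.2.2 + wtO O := by
      unfold wtO
      rw [List.map_cons, List.sum_cons]
    rw [e2, List.map_cons, List.sum_cons]
    have hpos : (0 : ℝ) < (1 / 8 : ℝ) ^ o.2.2 := by positivity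
    by_cases hco : Compat o.2.1 c
    · have e1 : wtO (testL l s (fun a => side T s a o'.1) (plant c (o :: O)))
          = wt (extL l s (side T s o.1 o'.1) (merge o.2.1 c) o.2.2)
            + wtO (testL l s (fun a => side T s a o'.1) (plant c O)) := by
        unfold plant
        rw [List.filter_cons_of_pos (by simpa using hco)]
        unfold testL wtO wt
        rw [List.map_cons, List.flatMap_cons, List.map_append, List.sum_append, List.map_map]
        rfl
      rw [e1]
      by_cases hs : Surv T l s o o'
      · rw [if_pos hs]
        have := wt_extL_le l s (side T s o.1 o'.1) (merge o.2.1 c) o.2.2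
        linarith
      · rw [if_neg hs]
        have hcompat : Compat o.2.1 o'.2.1 := fun p a a' ha ha' => hco p a a' ha (hc p a' ha')
        have hrun : (side T s o.1 o'.1).run l (vstar o'.2.1 o.2.1) ≠ s :=
          fun h => hs ⟨hcompat, h⟩
        have hin : In (merge o.2.1 c) l := by
          intro p w b h
          unfold merge at h
          cases hcp : c p with
          | none => rw [hcp] at h; exact hol p w b (by simpa using h)
          | some a => rw [hcp] at h; exact hcl p w b (by rw [hcp]; simpa using h)
        have hag : Agree (merge o.2.1 c) (vstar o'.2.1 o.2.1) := by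
          intro p w b h
          unfold merge at h
          unfold vstar
          cases hcp : c p with
          | none =>
            rw [hcp] at h
            have ho' : o'.2.1 p = none := by
              cases ho' : o'.2.1 p with
              | none => rfl
              | some a => rw [hc p a ho'] at hcp; exact absurd hcp (by simp)
            simp only [Option.none_or] at h
            rw [ho', h]
            simp
          | some a =>
            rw [hcp] at h
            simp only [Option.some_or, Option.some.injEq] at h
            subst h
            cases ho' : o'.2.1 p with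
            | some a =>
              have := hc p a ho'
              rw [hcp] at this
              simp only [Option.some.injEq] at this
              rw [← this]
              simp
            | none =>
              have hb := hdef p w b ho' hcp
              cases hk : o.2.1 p with
              | none => simp [hb]
              | some a =>
                have := hco p a (w, b) hk hcp
                rw [this]
                simp
        have := wt_extL_le_quarter l (vstar o'.2.1 o.2.1) s (side T s o.1 o'.1)
          (merge o.2.1 c) o.2.2 hin hag hrun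
        linarith
    · have e1 : plant c (o :: O) = plant c O := by
        unfold plant
        rw [List.filter_cons_of_neg (by simpa using hco)]
      rw [e1]
      have h3 : (0 : ℝ) ≤ (if Surv T l s o o' then (1 / 8 : ℝ) ^ o.2.2 else 0) := by
        split
        · exact hpos.le
        · exact le_refl _
      linarith

lemma wtO_plant_le (c : PW P W) (O : List (Obj S P W)) : wtO (plant c O) ≤ wtO O := by
  classical
  unfold wtO plant
  rw [List.map_map]
  apply sum_filter_map_le
  · intro o _ _
    exact le_refl _
  · intro o _
    positivity

end Pool.Agent.H.MP_7934a7_lc.helper50
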