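import Mathlib
import Pool.Agent.H.MP_7934a7_lc.helper50.Dich

/-!
Choice of good maps, of a label and of the positions to be exposed.
-/

set_option linter.unusedSectionVars false

namespace Pool.Agent.H.MP_7934a7_lc.helper50

open Finset

/-- Markov: at least half of the maps are good for both bounds -/
lemma good_half {ι : Type*} (Ω : Finset ι) (F : Bool → ι → ℝ) (hF : ∀ s i, 0 ≤ F s i) {t : ℝ}
    (ht : 0 < t) (h : ∀ s, ∑ i ∈ Ω, F s i ≤ Ω.card * t) :
    ∃ G ⊆ Ω, (Ω.card : ℝ) ≤ 2 * G.card ∧ ∀ i ∈ G, ∀ s, F s i ≤ 4 * t := by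
  classical
  have hbad : ∀ s, 4 * ((Ω.filter (fun i => ¬ F s i ≤ 4 * t)).card : ℝ) ≤ Ω.card := by
    intro s
    have h1 : ((Ω.filter (fun i => ¬ F s i ≤ 4 * t)).card : ℝ) * (4 * t) ≤ Ω.card * t := by
      calc _ = ∑ _i ∈ Ω.filter (fun i => ¬ F s i ≤ 4 * t), (4 * t) := by
            rw [sum_const, nsmul_eq_mul]
        _ ≤ ∑ i ∈ Ω.filter (fun i => ¬ F s i ≤ 4 * t), F s i := by
            apply sum_le_sum
            intro i hi
            rw [mem_filter] at hi
            exact (not_le.mp hi.2).le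
        _ ≤ ∑ i ∈ Ω, F s i := sum_le_sum_of_subset_of_nonneg (filter_subset _ _)
            (fun i _ _ => hF s i)
        _ ≤ _ := h s
    have h2 : (4 * ((Ω.filter (fun i => ¬ F s i ≤ 4 * t)).card : ℝ)) * t ≤ Ω.card * t := by
      linarith
    exact le_of_mul_le_mul_right h2 ht
  refine ⟨Ω.filter (fun i => F true i ≤ 4 * t ∧ F false i ≤ 4 * t), filter_subset _ _, ?_, ?_⟩
  · have hsub : Ω ⊆ Ω.filter (fun i => F true i ≤ 4 * t ∧ F false i ≤ 4 * t) ∪
        (Ω.filter (fun i => ¬ F true i ≤ 4 * t) ∪ Ω.filter (fun i => ¬ F false i ≤ 4 * t)) := by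
      intro i hi
      simp only [mem_union, mem_filter, hi, true_and]
      tauto
    have h1 := card_le_card hsub
    have h2 := card_union_le (Ω.filter (fun i => F true i ≤ 4 * t ∧ F false i ≤ 4 * t))
      (Ω.filter (fun i => ¬ F true i ≤ 4 * t) ∪ Ω.filter (fun i => ¬ F false i ≤ 4 * t))
    have h3 := card_union_le (Ω.filter (fun i => ¬ F true i ≤ 4 * t))
      (Ω.filter (fun i => ¬ F false i ≤ 4 * t))
    have h4 : (Ω.card : ℝ) ≤ (Ω.filter (fun i => F true i ≤ 4 * t ∧ F false i ≤ 4 * t)).card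
        + ((Ω.filter (fun i => ¬ F true i ≤ 4 * t)).card
          + (Ω.filter (fun i => ¬ F false i ≤ 4 * t)).card) := by
      exact_mod_cast h1.trans (h2.trans (Nat.add_le_add_left h3 _))
    have h5 := hbad true
    have h6 := hbad false
    linarith
  · intro i hi s
    rw [mem_filter] at hi
    cases s
    · exact hi.2.2
    · exact hi.2.1

/-- one of two labels has at least half -/
lemma label_two {ι : Type*} (G : Finset ι) (f : ι → Bool) :
    ∃ s, (G.card : ℝ) ≤ 2 * (G.filter (fun i => f i = s)).card := by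
  classical
  by_contra hcon
  push Not at hcon
  have h1 := hcon true
  have h2 := hcon false
  have h3 : (G.filter (fun i => f i = true)).card + (G.filter (fun i => f i = false)).card
      = G.card := by
    have := card_filter_add_card_filter_not (s := G) (fun i => f i = true)
    simpa using this
  have h4 : ((G.filter (fun i => f i = true)).card : ℝ) + (G.filter (fun i => f i = false)).card
      = G.card := by exact_mod_cast h3
  linarith

/-- a label with a large class, relative to the weights `q` -/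
lemma label_pick {ι α : Type*} [DecidableEq α] (A : Finset ι) (hA : A.Nonempty) (L : List α)
    (f : ι → α) (hf : ∀ i ∈ A, f i ∈ L) (q : α → ℝ) (hq : ∀ a, 0 ≤ q a) {t : ℝ}
    (ht : (L.map q).sum ≤ t) :
    ∃ a ∈ L, (A.card : ℝ) * q a ≤ (A.filter (fun i => f i = a)).card * t := by
  classical
  by_contra hcon
  push Not at hcon
  have hne : L.toFinset.Nonempty := by
    obtain ⟨i, hi⟩ := hA
    exact ⟨f i, List.mem_toFinset.mpr (hf i hi)⟩
  have h1 : ∑ a ∈ L.toFinset, ((A.filter (fun i => f i = a)).card : ℝ) * t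
      < ∑ a ∈ L.toFinset, (A.card : ℝ) * q a :=
    sum_lt_sum_of_nonempty hne (fun a ha => hcon a (List.mem_toFinset.mp ha))
  have h2 : ∑ a ∈ L.toFinset, ((A.filter (fun i => f i = a)).card : ℝ) * t = A.card * t := by
    rw [← sum_mul]
    congr 1
    have := card_eq_sum_card_fiberwise (s := A) (t := L.toFinset) (f := f)
      (fun i hi => by
        simp only [mem_coe, List.mem_toFinset]
        exact hf i hi)
    exact_mod_cast this.symm
  have h3 : ∑ a ∈ L.toFinset, q a ≤ (L.map q).sum := by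
    have : ∑ a ∈ L.toFinset, q a = (L.dedup.map q).sum := by
      rw [← List.sum_toFinset _ (List.nodup_dedup L)]
      congr 1
      ext a
      simp
    rw [this]
    exact (List.Sublist.map q (List.dedup_sublist L)).sum_le_sum
      (fun x hx => by
        simp only [List.mem_map] at hx
        obtain ⟨a, -, rfl⟩ := hx
        exact hq a)
  rw [h2, ← mul_sum] at h1
  have h4 : (A.card : ℝ) * ∑ a ∈ L.toFinset, q a ≤ A.card * t :=
    mul_le_mul_of_nonneg_left (h3.trans ht) (by positivity)
  linarith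

variable {P W : Type*} [Fintype P] [DecidableEq P] [DecidableEq W]

open Classical in
/-- maximal exposure -/
lemma expose {b : ℝ} (hb : 1 ≤ b) (C : Finset P) (L : Finset (P → W)) (hL : L.Nonempty)
    (E₀ : Finset P) (hE₀ : Disjoint E₀ C) (hagree : ∀ l ∈ L, ∀ l' ∈ L, ∀ p ∈ E₀, l p = l' p) :
    ∃ E : Finset P, E₀ ⊆ E ∧ Disjoint E C ∧ ∃ g ∈ L,
      (L.card : ℝ) * b ^ E₀.card ≤ (L.filter (fun l => ∀ p ∈ E, l p = g p)).card * b ^ E.card ∧
      ∀ E' : Finset P, Disjoint E' C → ∀ g' ∈ L,
        ((L.filter (fun l => ∀ p ∈ E', l p = g' p)).card : ℝ) * b ^ E'.card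
          ≤ (L.filter (fun l => ∀ p ∈ E, l p = g p)).card * b ^ E.card := by
  let A : Finset (Finset P × (P → W)) := ((univ.filter (fun E : Finset P => Disjoint E C)) ×ˢ L)
  have hA : A.Nonempty := by
    obtain ⟨g, hg⟩ := hL
    exact ⟨(∅, g), by simp [A, hg]⟩
  obtain ⟨⟨E₁, g⟩, h1, h2⟩ := exists_max_image A
    (fun q => ((L.filter (fun l => ∀ p ∈ q.1, l p = q.2 p)).card : ℝ) * b ^ q.1.card) hA
  simp only [A, mem_product, mem_filter, mem_univ, true_and] at h1 h2
  have hcnt : L.filter (fun l => ∀ p ∈ E₁ ∪ E₀, l p = g p) = L.filter (fun l => ∀ p ∈ E₁, l p = g p)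
      := by
    apply filter_congr
    intro l hl
    constructor
    · intro h p hp
      exact h p (mem_union_left _ hp)
    · intro h p hp
      rcases mem_union.mp hp with hp | hp
      · exact h p hp
      · exact hagree l hl g h1.2 p hp
  have hmax : ∀ E' : Finset P, Disjoint E' C → ∀ g' ∈ L,
        ((L.filter (fun l => ∀ p ∈ E', l p = g' p)).card : ℝ) * b ^ E'.card
          ≤ (L.filter (fun l => ∀ p ∈ E₁ ∪ E₀, l p = g p)).card * b ^ (E₁ ∪ E₀).card := by
    intro E' hE' g' hg'
    refine le_trans (h2 (E', g') ⟨hE', hg'⟩) ?_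
    rw [hcnt]
    apply mul_le_mul_of_nonneg_left _ (by positivity)
    exact pow_le_pow_right₀ hb (card_le_card subset_union_left)
  refine ⟨E₁ ∪ E₀, subset_union_right, disjoint_union_left.mpr ⟨h1.1, hE₀⟩, g, h1.2, ?_, hmax⟩
  have := hmax E₀ hE₀ g h1.2
  have he : L.filter (fun l => ∀ p ∈ E₀, l p = g p) = L := by
    apply filter_true_of_mem
    intro l hl p hp
    exact hagree l hl g h1.2 p hp
  rw [he] at this
  exact this

end Pool.Agent.H.MP_7934a7_lc.helper50
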