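import Mathlib
import Pool.Agent.H.MP_7934a7_lc.helper50.Pick

/-!
One step of the two-sided halving.
-/

set_option linter.unusedSectionVars false

namespace Pool.Agent.H.MP_7934a7_lc.helper50

open Finset

variable {S P W : Type*} [Fintype P] [DecidableEq P] [Fintype W] [DecidableEq W]

/-- `a` wins for side `s` in the world `(l, v)` -/
def Wins (T : S → S → Tree P W) (s : Bool) (a : S) (l : P → W) (v : P → Bool) : Prop :=
  ∀ b, (side T s a b).run l v = s

/-- bounds for the majorants -/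
noncomputable def TT (M : ℝ) (i : ℕ) : ℝ := M * 8 ^ i

/-- the weight of an unexposed find -/
noncomputable def BB (b : ℝ) (K i : ℕ) : ℝ := ((K : ℝ) + 1 - i) / b

/-- State of the halving after `i` steps. -/
structure St (S : Type*) {P W : Type*} [Fintype P] [DecidableEq P] [Fintype W] [DecidableEq W]
    (T : S → S → Tree P W) (x M b : ℝ) (K i : ℕ) where
  c : PW P W
  Ω : Finset (P → W)
  O : Bool → List (Obj S P W)
  R : Bool → (P → W) → List (Obj S P W)
  ne : Ω.Nonempty
  inn : ∀ l ∈ Ω, In c l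
  spr : Spread b (dom c) Ω
  mj : ∀ s, majO x (BB b K i) (dom c) (O s) ≤ TT M i
  sub : ∀ s, ∀ l ∈ Ω, ∀ o ∈ R s l, o ∈ O s ∧ In o.2.1 l
  ge : ∀ s, ∀ o ∈ O s, Ext c o.2.1
  cov : ∀ s, ∀ l ∈ Ω, ∀ v, Agree c v → ∀ a, Wins T s a l v →
    ∃ o ∈ R s l, o.1 = a ∧ Agree o.2.1 v
  pot : ∀ l ∈ Ω, wtO (R true l) * wtO (R false l) ≤ M ^ 2 * (5 / 8) ^ i
  dens : (Fintype.card W : ℝ) ^ Fintype.card P
    ≤ Ω.card * b ^ (dom c).card * ∏ j ∈ range i, (4 * TT M j)

lemma Ext_dom {k k' : PW P W} (h : Ext k k') : dom k ⊆ dom k' := by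
  intro p hp
  obtain ⟨a, ha⟩ := mem_dom.mp hp
  exact mem_dom.mpr ⟨a, h p a ha⟩

/-- the planted world after a step: `k'` and the exposed locations with value `true` -/
noncomputable def newc (k' : PW P W) (E : Finset P) (g : P → W) : PW P W :=
  fun p => (k' p).or (if p ∈ E then some (g p, true) else none)

lemma newc_ext (k' : PW P W) (E : Finset P) (g : P → W) : Ext k' (newc k' E g) := by
  intro p a h
  simp [newc, h]

lemma dom_newc (k' : PW P W) (E : Finset P) (g : P → W) : dom (newc k' E g) = dom k' ∪ E := by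
  ext p
  simp only [dom, mem_filter, mem_univ, true_and, mem_union, newc]
  cases hk : k' p with
  | some a => simp
  | none => by_cases h : p ∈ E <;> simp [h]

lemma newc_in {k' : PW P W} {E : Finset P} {g l : P → W} (hk : In k' l)
    (hE : ∀ p ∈ E, l p = g p) : In (newc k' E g) l := by
  intro p w b h
  unfold newc at h
  cases hkp : k' p with
  | some a => rw [hkp] at h; exact hk p w b (by rw [hkp]; simpa using h)
  | none =>
    rw [hkp] at h
    by_cases hp : p ∈ E
    · simp only [hp, if_true, Option.none_or, Option.some.injEq, Prod.mk.injEq] at h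
      rw [← h.1]; exact hE p hp
    · simp [hp] at h

lemma newc_default {k' : PW P W} {E : Finset P} {g : P → W} (p : P) (w : W) (b : Bool)
    (h : k' p = none) (h' : newc k' E g p = some (w, b)) : b = true := by
  unfold newc at h'
  rw [h] at h'
  by_cases hp : p ∈ E
  · simp only [hp, if_true, Option.none_or, Option.some.injEq, Prod.mk.injEq] at h'
    exact h'.2.symm
  · simp [hp] at h'

lemma In.of_ext {k k' : PW P W} {l : P → W} (h : Ext k k') (hk' : In k' l) : In k l :=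
  fun p w b hp => hk' p w b (h p _ hp)

lemma Agree.of_ext {k k' : PW P W} {v : P → Bool} (h : Ext k k') (hk' : Agree k' v) : Agree k v :=
  fun p w b hp => hk' p w b (h p _ hp)

lemma compat_of {k c : PW P W} {l : P → W} {v : P → Bool} (h1 : In k l) (h2 : Agree k v)
    (h3 : In c l) (h4 : Agree c v) : Compat k c := by
  rintro p ⟨w, b⟩ ⟨w', b'⟩ ha ha'
  rw [← h1 _ _ _ ha, ← h2 _ _ _ ha, ← h3 _ _ _ ha', ← h4 _ _ _ ha']

lemma in_merge {k c : PW P W} {l : P → W} (h1 : In k l) (h3 : In c l) : In (merge k c) l := by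
  intro p w b h
  unfold merge at h
  cases hcp : c p with
  | none => rw [hcp] at h; exact h1 p w b (by simpa using h)
  | some a => rw [hcp] at h; exact h3 p w b (by rw [hcp]; simpa using h)

lemma agree_merge {k c : PW P W} {v : P → Bool} (h1 : Agree k v) (h3 : Agree c v) :
    Agree (merge k c) v := by
  intro p w b h
  unfold merge at h
  cases hcp : c p with
  | none => rw [hcp] at h; exact h1 p w b (by simpa using h)
  | some a => rw [hcp] at h; exact h3 p w b (by rw [hcp]; simpa using h)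

variable {T : S → S → Tree P W} {x M b : ℝ} {K i d : ℕ}

open Classical in
/-- **One step.** -/
theorem St.step (σ : St S T x M b K i) (hi : i < K) (hx : 1 ≤ x) (hb : 1 ≤ b) (hM : 0 < M)
    (hd : ∀ a a', (T a a').AtMost d) (hxd : (1 + 2 * x * BB b K (i + 1)) ^ d ≤ 2)
    (hR : ∀ s, ∀ l ∈ σ.Ω, σ.R s l ≠ []) :
    Nonempty (St S T x M b K (i + 1)) := by
  have hb0 : 0 < b := by linarith
  have hx0 : 0 ≤ x := by linarith
  have hT : 0 < TT M i := by unfold TT; positivity
  have hiK : (i : ℝ) + 1 ≤ K := by exact_mod_cast hi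
  have hB : 0 ≤ BB b K (i + 1) := by
    unfold BB; push_cast; apply div_nonneg _ hb0.le; linarith
  have hBeq : 1 / b + BB b K (i + 1) = BB b K i := by
    unfold BB; push_cast; field_simp; ring
  have hB1 : 1 / b ≤ BB b K i := by rw [← hBeq]; linarith
  -- 1. good maps
  obtain ⟨G, hGΩ, hGcard, hG⟩ := good_half σ.Ω (fun s l => Sup x (BB b K (i + 1)) (dom σ.c) (σ.O s) l)
    (fun s l => Sup_nonneg hx0 hB _ _ _) hT (fun s => by
      refine le_trans (avg_Sup hb0 hB hx0 σ.spr (σ.O s)) ?_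
      rw [hBeq]
      exact mul_le_mul_of_nonneg_left (σ.mj s) (by positivity))
  -- 2. dichotomy
  have hdich : ∀ l : P → W, ∃ s : Bool, ∃ o' : Obj S P W, l ∈ G → (o' ∈ σ.R (!s) l ∧
      ((σ.R s l).map (fun o => if Surv T l s o o' then (1 / 8 : ℝ) ^ o.2.2 else 0)).sum
        ≤ wtO (σ.R s l) / 2) := by
    intro l
    by_cases hl : l ∈ G
    · obtain ⟨s, o', h1, h2⟩ := dichotomy T l (fun s => σ.R s l) (fun s => hR s l (hGΩ hl))
      exact ⟨s, o', fun _ => ⟨h1, h2⟩⟩
    · obtain ⟨l₀, hl₀⟩ := σ.ne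
      obtain ⟨o, ho⟩ := List.exists_mem_of_ne_nil _ (hR true l₀ hl₀)
      exact ⟨true, o, fun h => absurd h hl⟩
  choose sf of hof using hdich
  obtain ⟨s, hs⟩ := label_two G sf
  set G' := G.filter (fun l => sf l = s) with hG'
  have hΩpos : (0 : ℝ) < σ.Ω.card := by exact_mod_cast card_pos.mpr σ.ne
  have hG'pos : (0 : ℝ) < G'.card := by linarith
  have hG'ne : G'.Nonempty := card_pos.mp (by exact_mod_cast hG'pos)
  have hG'4 : (σ.Ω.card : ℝ) ≤ 4 * G'.card := by linarith
  -- 3. label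
  have hfL : ∀ l ∈ G', of l ∈ σ.O (!s) := by
    intro l hl
    rw [hG', mem_filter] at hl
    have h1 := (hof l hl.1).1
    rw [hl.2] at h1
    exact (σ.sub (!s) l (hGΩ hl.1) _ h1).1
  obtain ⟨o', ho'O, ho'card⟩ := label_pick G' hG'ne (σ.O (!s)) of hfL
    (fun o => x ^ o.2.2 * BB b K i ^ (dom o.2.1 \ dom σ.c).card)
    (fun o => by have : 0 ≤ BB b K i := by rw [← hBeq]; positivity
                 positivity) (σ.mj (!s))
  set Lb := G'.filter (fun l => of l = o') with hLb
  set C := dom σ.c with hC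
  set E₀ := dom o'.2.1 \ C with hE₀
  have hqpos : (1 / b) ^ E₀.card ≤ x ^ o'.2.2 * BB b K i ^ E₀.card := by
    have h1 : (1 / b) ^ E₀.card ≤ BB b K i ^ E₀.card := pow_le_pow_left₀ (by positivity) hB1 _
    have h2 : 1 ≤ x ^ o'.2.2 := one_le_pow₀ hx
    have h3 : 0 ≤ BB b K i ^ E₀.card := le_trans (by positivity) h1
    nlinarith
  have hLbcard : (G'.card : ℝ) ≤ Lb.card * b ^ E₀.card * TT M i := by
    have h1 : (G'.card : ℝ) * (1 / b) ^ E₀.card ≤ Lb.card * TT M i :=
      le_trans (mul_le_mul_of_nonneg_left hqpos hG'pos.le) ho'card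
    have h2 : (G'.card : ℝ) = G'.card * (1 / b) ^ E₀.card * b ^ E₀.card := by
      rw [one_div, inv_pow]; field_simp
    rw [h2]
    calc _ ≤ Lb.card * TT M i * b ^ E₀.card := mul_le_mul_of_nonneg_right h1 (by positivity)
      _ = _ := by ring
  have hLbpos : (0 : ℝ) < Lb.card := by
    by_contra hcon
    have : (Lb.card : ℝ) = 0 := le_antisymm (not_lt.mp hcon) (by positivity)
    rw [this] at hLbcard
    linarith
  have hLbne : Lb.Nonempty := card_pos.mp (by exact_mod_cast hLbpos)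
  -- facts about the members of `Lb`
  have hLbfact : ∀ l ∈ Lb, l ∈ σ.Ω ∧ (∀ s, Sup x (BB b K (i + 1)) C (σ.O s) l ≤ 4 * TT M i) ∧
      In o'.2.1 l ∧ o' ∈ σ.R (!s) l ∧
      ((σ.R s l).map (fun o => if Surv T l s o o' then (1 / 8 : ℝ) ^ o.2.2 else 0)).sum
        ≤ wtO (σ.R s l) / 2 := by
    intro l hl
    rw [hLb, mem_filter, hG', mem_filter] at hl
    obtain ⟨⟨hl1, hl2⟩, hl3⟩ := hl
    obtain ⟨h1, h2⟩ := hof l hl1
    rw [hl2, hl3] at h1 h2
    exact ⟨hGΩ hl1, fun s => hG l hl1 s, (σ.sub (!s) l (hGΩ hl1) _ h1).2, h1, h2⟩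
  -- 4. exposure
  obtain ⟨E, hE₀E, hEC, g, hg, hEcard, hEmax⟩ := expose hb C Lb hLbne E₀
    (sdiff_disjoint) (by
      intro l hl l' hl' p hp
      obtain ⟨⟨w, c⟩, ha⟩ := mem_dom.mp (mem_sdiff.mp hp).1
      rw [(hLbfact l hl).2.2.1 _ _ _ ha, (hLbfact l' hl').2.2.1 _ _ _ ha])
  set Ω' := Lb.filter (fun l => ∀ p ∈ E, l p = g p) with hΩ'
  set c' := newc o'.2.1 E g with hc'
  have hcext : Ext σ.c c' := (σ.ge (!s) o' ho'O).trans (newc_ext _ _ _)
  have hdomc' : dom c' = C ∪ E := by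
    rw [hc', dom_newc]
    ext p
    simp only [mem_union]
    constructor
    · rintro (h | h)
      · by_cases hp : p ∈ C
        · exact Or.inl hp
        · exact Or.inr (hE₀E (mem_sdiff.mpr ⟨h, hp⟩))
      · exact Or.inr h
    · rintro (h | h)
      · exact Or.inl (Ext_dom (σ.ge (!s) o' ho'O) h)
      · exact Or.inr h
  have hΩ'in : ∀ l ∈ Ω', l ∈ Lb ∧ In c' l := by
    intro l hl
    rw [hΩ', mem_filter] at hl
    exact ⟨hl.1, newc_in (hLbfact l hl.1).2.2.1 hl.2⟩
  have hgΩ' : g ∈ Ω' := by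
    rw [hΩ', mem_filter]
    exact ⟨hg, fun _ _ => rfl⟩
  -- 5. the new state
  let F : S → Tree P W := fun a => side T s a o'.1
  have hF : ∀ a, (F a).AtMost d := by
    intro a
    simp only [F, side]
    split
    · exact hd _ _
    · exact hd _ _
  have hplantge : ∀ s₁, ∀ o ∈ plant c' (σ.O s₁), Ext c' o.2.1 := by
    intro s₁ o ho
    obtain ⟨o₁, -, -, rfl⟩ := mem_plant.mp ho
    exact merge_ext_right _ _
  have hmajplant : ∀ s₁, majO x (BB b K (i + 1)) (dom c') (plant c' (σ.O s₁)) ≤ 4 * TT M i := by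
    intro s₁
    have hgin := hΩ'in g hgΩ'
    refine le_trans (majO_plant_le hx0 hB (C := C) (Ext_dom hcext) hgin.2 (σ.O s₁)) ?_
    exact (hLbfact g hgin.1).2.1 s₁
  have hcovplant : ∀ s₁, ∀ l ∈ Ω', ∀ v, Agree c' v → ∀ a, Wins T s₁ a l v →
      ∃ o ∈ plant c' (σ.R s₁ l), o.1 = a ∧ Agree o.2.1 v ∧ In o.2.1 l := by
    intro s₁ l hl v hv a ha
    obtain ⟨hlL, hlc⟩ := hΩ'in l hl
    obtain ⟨o, ho, hoa, hov⟩ := σ.cov s₁ l (hLbfact l hlL).1 v (Agree.of_ext hcext hv) a ha
    have hoin := (σ.sub s₁ l (hLbfact l hlL).1 o ho).2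
    refine ⟨(o.1, merge o.2.1 c', o.2.2), ?_, hoa, agree_merge hov hv, in_merge hoin hlc⟩
    rw [mem_plant]
    exact ⟨o, ho, compat_of hoin hov hlc hv, rfl⟩
  have hsubplant : ∀ s₁, ∀ l ∈ Ω', ∀ o ∈ plant c' (σ.R s₁ l),
      o ∈ plant c' (σ.O s₁) ∧ In o.2.1 l := by
    intro s₁ l hl o ho
    obtain ⟨hlL, hlc⟩ := hΩ'in l hl
    obtain ⟨o₁, ho₁, hco, rfl⟩ := mem_plant.mp ho
    have h1 := σ.sub s₁ l (hLbfact l hlL).1 o₁ ho₁
    exact ⟨mem_plant.mpr ⟨o₁, h1.1, hco, rfl⟩, in_merge h1.2 hlc⟩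
  refine ⟨{
    c := c'
    Ω := Ω'
    O := fun s₁ => if s₁ = s then testG s F (plant c' (σ.O s)) else plant c' (σ.O s₁)
    R := fun s₁ l => if s₁ = s then testL l s F (plant c' (σ.R s l)) else plant c' (σ.R s₁ l)
    ne := ⟨g, hgΩ'⟩
    inn := fun l hl => (hΩ'in l hl).2
    spr := ?_
    mj := ?_
    sub := ?_
    ge := ?_
    cov := ?_
    pot := ?_
    dens := ?_ }⟩
  · -- spread
    intro t ht g'
    rw [hdomc'] at ht
    have htC : Disjoint t C := disjoint_of_subset_right subset_union_left ht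
    have htE : Disjoint t E := disjoint_of_subset_right subset_union_right ht
    rcases (Ω'.filter (fun l => ∀ p ∈ t, l p = g' p)).eq_empty_or_nonempty with h0 | ⟨g₂, hg₂⟩
    · rw [h0]
      simp only [card_empty, Nat.cast_zero, zero_mul]
      positivity
    · rw [mem_filter] at hg₂
      have hg₂L := (hΩ'in g₂ hg₂.1).1
      have hg₂E : ∀ p ∈ E, g₂ p = g p := by
        have := hg₂.1
        rw [hΩ', mem_filter] at this
        exact this.2
      have h1 := hEmax (E ∪ t) (disjoint_union_left.mpr ⟨hEC, htC⟩) g₂ hg₂L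
      have h2 : Ω'.filter (fun l => ∀ p ∈ t, l p = g' p)
          = Lb.filter (fun l => ∀ p ∈ E ∪ t, l p = g₂ p) := by
        ext l
        simp only [hΩ', mem_filter]
        constructor
        · rintro ⟨⟨h3, h4⟩, h5⟩
          refine ⟨h3, fun p hp => ?_⟩
          rcases mem_union.mp hp with hp | hp
          · rw [h4 p hp, hg₂E p hp]
          · rw [h5 p hp, hg₂.2 p hp]
        · rintro ⟨h3, h4⟩
          refine ⟨⟨h3, fun p hp => ?_⟩, fun p hp => ?_⟩
          · rw [h4 p (mem_union_left _ hp), hg₂E p hp]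
          · rw [h4 p (mem_union_right _ hp), hg₂.2 p hp]
      rw [h2]
      rw [card_union_of_disjoint htE.symm, pow_add] at h1
      have hbE : 0 < b ^ E.card := by positivity
      have h3 : (((Lb.filter (fun l => ∀ p ∈ E ∪ t, l p = g₂ p)).card : ℝ) * b ^ t.card)
          * b ^ E.card ≤ Ω'.card * b ^ E.card := by
        calc _ = ((Lb.filter (fun l => ∀ p ∈ E ∪ t, l p = g₂ p)).card : ℝ)
              * (b ^ E.card * b ^ t.card) := by ring
          _ ≤ _ := h1
      exact le_of_mul_le_mul_right h3 hbE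
  · -- majorants
    intro s₁
    have hTT : TT M (i + 1) = 8 * TT M i := by unfold TT; rw [pow_succ]; ring
    rw [hTT]
    by_cases hs₁ : s₁ = s
    · subst hs₁
      rw [if_pos rfl]
      have h1 := majO_testG_le hx0 hB (C := dom c') s₁ hF (O := plant c' (σ.O s₁))
        (fun o ho => Ext_dom (hplantge s₁ o ho))
      have h2 := hmajplant s₁
      calc _ ≤ _ := h1
        _ ≤ 2 * (4 * TT M i) := mul_le_mul hxd h2 (by
            unfold majO
            apply List.sum_nonneg
            intro y hy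
            simp only [List.mem_map] at hy
            obtain ⟨o, -, rfl⟩ := hy
            positivity) (by norm_num)
        _ = _ := by ring
    · rw [if_neg hs₁]
      have h2 := hmajplant s₁
      linarith
  · -- sub
    intro s₁ l hl o ho
    by_cases hs₁ : s₁ = s
    · subst hs₁
      rw [if_pos rfl] at ho ⊢
      obtain ⟨o₁, ho₁, h1, h2⟩ := mem_testL.mp ho
      have h3 := hsubplant s₁ l hl o₁ ho₁
      refine ⟨mem_testG.mpr ⟨o₁, h3.1, h1, extL_mem _ _ _ _ _ _ h2⟩, ?_⟩
      exact extL_In _ _ _ _ _ _ h3.2 h2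
    · rw [if_neg hs₁] at ho ⊢
      exact hsubplant s₁ l hl o ho
  · -- ge
    intro s₁ o ho
    by_cases hs₁ : s₁ = s
    · subst hs₁
      rw [if_pos rfl] at ho
      obtain ⟨o₁, ho₁, h1, h2⟩ := mem_testG.mp ho
      exact (hplantge s₁ o₁ ho₁).trans (ext_ge _ _ _ _ _ h2)
    · rw [if_neg hs₁] at ho
      exact hplantge s₁ o ho
  · -- cov
    intro s₁ l hl v hv a ha
    obtain ⟨o, ho, hoa, hov, hoin⟩ := hcovplant s₁ l hl v hv a ha
    by_cases hs₁ : s₁ = s
    · subst hs₁
      rw [if_pos rfl]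
      have hrun : (F o.1).run l v = s₁ := by rw [hoa]; exact ha o'.1
      obtain ⟨q, hq, hqv⟩ := extL_cov l v s₁ (F o.1) o.2.1 o.2.2 hoin hov hrun
      exact ⟨(o.1, q), mem_testL.mpr ⟨o, ho, rfl, hq⟩, hoa, hqv⟩
    · rw [if_neg hs₁]
      exact ⟨o, ho, hoa, hov⟩
  · -- pot
    intro l hl
    obtain ⟨hlL, hlc⟩ := hΩ'in l hl
    obtain ⟨hlΩ, -, hlo', -, hsurv⟩ := hLbfact l hlL
    have hpot := σ.pot l hlΩ
    have hkill : wtO (testL l s F (plant c' (σ.R s l))) ≤ 5 / 8 * wtO (σ.R s l) := by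
      have h1 := wtO_testL_plant_le T l s o' (c := c') hlc (newc_ext _ _ _)
        (fun p w b h h' => newc_default p w b h h') (σ.R s l)
        (fun o ho => (σ.sub s l hlΩ o ho).2)
      have h2 := wtO_nonneg (σ.R s l)
      calc _ ≤ _ := h1
        _ ≤ wtO (σ.R s l) / 4 + 3 / 4 * (wtO (σ.R s l) / 2) := by linarith
        _ = _ := by ring
    have hkeep : wtO (plant c' (σ.R (!s) l)) ≤ wtO (σ.R (!s) l) := wtO_plant_le _ _
    have hpow : M ^ 2 * (5 / 8) ^ (i + 1) = 5 / 8 * (M ^ 2 * (5 / 8) ^ i) := by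
      rw [pow_succ]; ring
    rw [hpow]
    have n1 := wtO_nonneg (σ.R true l)
    have n2 := wtO_nonneg (σ.R false l)
    cases s
    · simp only [Bool.not_false] at hkeep
      rw [if_neg (by simp), if_pos rfl]
      calc _ ≤ wtO (σ.R true l) * (5 / 8 * wtO (σ.R false l)) :=
            mul_le_mul hkeep hkill (wtO_nonneg _) n1
        _ = 5 / 8 * (wtO (σ.R true l) * wtO (σ.R false l)) := by ring
        _ ≤ _ := by linarith
    · simp only [Bool.not_true] at hkeep
      rw [if_pos rfl, if_neg (by simp)]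
      calc _ ≤ (5 / 8 * wtO (σ.R true l)) * wtO (σ.R false l) :=
            mul_le_mul hkill hkeep (wtO_nonneg _) (by positivity)
        _ = 5 / 8 * (wtO (σ.R true l) * wtO (σ.R false l)) := by ring
        _ ≤ _ := by linarith
  · -- density
    rw [hdomc', card_union_of_disjoint hEC.symm, prod_range_succ]
    have hprod : 0 ≤ ∏ j ∈ range i, (4 * TT M j) := by
      apply prod_nonneg
      intro j _
      unfold TT
      positivity
    have h1 : (σ.Ω.card : ℝ) ≤ Ω'.card * b ^ E.card * (4 * TT M i) := by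
      calc (σ.Ω.card : ℝ) ≤ 4 * G'.card := hG'4
        _ ≤ 4 * (Lb.card * b ^ E₀.card * TT M i) := by linarith
        _ = (Lb.card * b ^ E₀.card) * (4 * TT M i) := by ring
        _ ≤ _ := mul_le_mul_of_nonneg_right hEcard (by positivity)
    calc _ ≤ _ := σ.dens
      _ ≤ (Ω'.card * b ^ E.card * (4 * TT M i)) * b ^ C.card * ∏ j ∈ range i, (4 * TT M j) := by
          apply mul_le_mul_of_nonneg_right _ hprod
          exact mul_le_mul_of_nonneg_right h1 (by positivity)
      _ = _ := by rw [pow_add]; ring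

end Pool.Agent.H.MP_7934a7_lc.helper50
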