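import Mathlib
import Pool.Agent.H.MP_7934a7_lc.helper50.Step

/-!
The finite core: no two-prover verifier.
-/

set_option linter.unusedSectionVars false

namespace Pool.Agent.H.MP_7934a7_lc.helper50

open Finset

variable {S P W : Type*} [Fintype P] [DecidableEq P] [Fintype W] [DecidableEq W]

lemma St.card_le {T : S → S → Tree P W} {x M b : ℝ} {K i : ℕ} (σ : St S T x M b K i) :
    (σ.Ω.card : ℝ) * (Fintype.card W : ℝ) ^ (dom σ.c).card
      ≤ (Fintype.card W : ℝ) ^ Fintype.card P := by
  classical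
  have h1 : σ.Ω.card ≤ Fintype.card ({p : P // p ∉ dom σ.c} → W) := by
    rw [← card_univ]
    apply card_le_card_of_injOn (fun l p => l p.1) (fun _ _ => by simp)
    intro l hl l' hl' h
    funext p
    by_cases hp : p ∈ dom σ.c
    · obtain ⟨⟨w, c⟩, ha⟩ := mem_dom.mp hp
      rw [σ.inn l hl _ _ _ ha, σ.inn l' hl' _ _ _ ha]
    · exact congrFun h ⟨p, hp⟩
  rw [Fintype.card_fun, Fintype.card_subtype_compl, Fintype.card_coe] at h1
  have h2 : (dom σ.c).card ≤ Fintype.card P := card_le_univ _
  calc _ ≤ ((Fintype.card W : ℝ) ^ (Fintype.card P - (dom σ.c).card))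
        * (Fintype.card W : ℝ) ^ (dom σ.c).card := by
        apply mul_le_mul_of_nonneg_right _ (by positivity)
        exact_mod_cast h1
    _ = _ := by rw [← pow_add]; congr 1; omega

/-- the planted world is small -/
lemma St.pow_dom_le {T : S → S → Tree P W} {x M : ℝ} {b : ℕ} {K i : ℕ}
    (σ : St S T x M b K i) (hb : 1 ≤ b) (hW : Fintype.card W = b ^ 2) :
    (b : ℝ) ^ (dom σ.c).card ≤ ∏ j ∈ range i, (4 * TT M j) := by
  have h1 := σ.card_le
  have h2 := σ.dens
  have hb0 : (0 : ℝ) < b := by exact_mod_cast hb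
  have hΩ : (0 : ℝ) < σ.Ω.card := by exact_mod_cast card_pos.mpr σ.ne
  have h3 : (σ.Ω.card : ℝ) * (Fintype.card W : ℝ) ^ (dom σ.c).card
      ≤ σ.Ω.card * (b : ℝ) ^ (dom σ.c).card * ∏ j ∈ range i, (4 * TT M j) := h1.trans h2
  have h4 : (Fintype.card W : ℝ) ^ (dom σ.c).card
      = (b : ℝ) ^ (dom σ.c).card * (b : ℝ) ^ (dom σ.c).card := by
    rw [hW]; push_cast; rw [← pow_mul, ← pow_add]; congr 1; ring
  rw [h4] at h3
  have h5 : (σ.Ω.card * (b : ℝ) ^ (dom σ.c).card) * (b : ℝ) ^ (dom σ.c).card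
      ≤ (σ.Ω.card * (b : ℝ) ^ (dom σ.c).card) * ∏ j ∈ range i, (4 * TT M j) := by
    calc _ = σ.Ω.card * ((b : ℝ) ^ (dom σ.c).card * (b : ℝ) ^ (dom σ.c).card) := by ring
      _ ≤ _ := h3
  exact le_of_mul_le_mul_left h5 (by positivity)

/-- the product of the losses in `8 m` steps -/
lemma prod_TT_le {m i : ℕ} (hi : i ≤ 8 * m) :
    ∏ j ∈ range i, (4 * TT ((2 : ℝ) ^ m) j) ≤ (2 : ℝ) ^ (8 * m * (25 * m + 2)) := by
  have h1 : ∀ j ∈ range i, 4 * TT ((2 : ℝ) ^ m) j ≤ (2 : ℝ) ^ (25 * m + 2) := by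
    intro j hj
    rw [mem_range] at hj
    unfold TT
    have e : (4 : ℝ) * (2 ^ m * 8 ^ j) = 2 ^ (2 + m + 3 * j) := by
      rw [pow_add, pow_add, pow_mul]; norm_num; ring
    rw [e]
    exact pow_le_pow_right₀ (by norm_num) (by omega)
  calc _ ≤ ∏ _j ∈ range i, (2 : ℝ) ^ (25 * m + 2) := by
        apply prod_le_prod
        · intro j _; unfold TT; positivity
        · exact h1
    _ = (2 : ℝ) ^ ((25 * m + 2) * i) := by rw [prod_const, card_range, ← pow_mul]
    _ ≤ _ := pow_le_pow_right₀ (by norm_num) (by nlinarith)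

lemma St.nonempty_R {T : S → S → Tree P W} {x M b : ℝ} {K i : ℕ} (σ : St S T x M b K i) {r : ℕ}
    (hyp : ∀ (s : Bool) (l : P → W) (v : P → Bool), (univ.filter (fun p => v p ≠ s)).card ≤ r →
      ∃ a, Wins T s a l v) (hr : (dom σ.c).card ≤ r) :
    ∀ s, ∀ l ∈ σ.Ω, σ.R s l ≠ [] := by
  intro s l hl
  let v : P → Bool := fun p => ((σ.c p).map Prod.snd).getD s
  have hv : (univ.filter (fun p => v p ≠ s)).card ≤ r := by
    refine le_trans (card_le_card ?_) hr
    intro p hp
    rw [mem_filter] at hp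
    by_contra hcon
    have : σ.c p = none := by
      cases h : σ.c p with
      | none => rfl
      | some a => exact absurd (mem_dom.mpr ⟨a, h⟩) hcon
    apply hp.2
    simp [v, this]
  have hagree : Agree σ.c v := by
    intro p w c hp
    simp [v, hp]
  obtain ⟨a, ha⟩ := hyp s l v hv
  obtain ⟨o, ho, -, -⟩ := σ.cov s l hl v hagree a ha
  exact List.ne_nil_of_mem ho

/-- the first state -/
lemma exists_start [Fintype S] (T : S → S → Tree P W) {x b : ℝ} (hb : 1 ≤ b) {m K : ℕ}
    (hS : Fintype.card S ≤ 2 ^ m) (hW : b ≤ Fintype.card W) (hWne : Nonempty W) :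
    Nonempty (St S T x ((2 : ℝ) ^ m) b K 0) := by
  classical
  have hS' : (Fintype.card S : ℝ) ≤ 2 ^ m := by exact_mod_cast hS
  let c₀ : PW P W := fun _ => none
  have hdom : dom c₀ = ∅ := by
    ext p; rw [mem_dom]; simp [c₀]
  let L : List (Obj S P W) := (univ : Finset S).toList.map (fun a => (a, c₀, 0))
  have hmemL : ∀ a : S, (a, c₀, 0) ∈ L := by
    intro a
    simp only [L, List.mem_map, mem_toList, mem_univ, true_and]
    exact ⟨a, rfl⟩
  have hL : ∀ o ∈ L, o.2.1 = c₀ := by
    intro o ho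
    simp only [L, List.mem_map] at ho
    obtain ⟨a, -, rfl⟩ := ho
    rfl
  have hlen : ∀ f : Obj S P W → ℝ, (∀ a : S, f (a, c₀, 0) = 1) → (L.map f).sum ≤ 2 ^ m := by
    intro f hf
    have : L.map f = List.replicate (Fintype.card S) 1 := by
      simp only [L, List.map_map]
      rw [List.eq_replicate_iff]
      constructor
      · simp
      · intro y hy
        simp only [List.mem_map, Function.comp] at hy
        obtain ⟨a, -, rfl⟩ := hy
        exact hf a
    rw [this, List.sum_replicate, nsmul_eq_mul, mul_one]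
    exact hS'
  refine ⟨{
    c := c₀
    Ω := univ
    O := fun _ => L
    R := fun _ _ => L
    ne := ⟨fun _ => Classical.choice hWne, mem_univ _⟩
    inn := fun l _ p w c h => by simp [c₀] at h
    spr := ?_
    mj := ?_
    sub := ?_
    ge := ?_
    cov := ?_
    pot := ?_
    dens := ?_ }⟩
  · intro s _ g
    -- count the maps with given values on `s`
    have h1 : (univ.filter (fun l : P → W => ∀ p ∈ s, l p = g p)).card
        ≤ Fintype.card ({p : P // p ∉ s} → W) := by
      rw [← card_univ]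
      apply card_le_card_of_injOn (fun l p => l p.1) (fun _ _ => by simp)
      intro l hl l' hl' h
      simp only [coe_filter, mem_univ, true_and, Set.mem_ofPred_eq] at hl hl'
      funext p
      by_cases hp : p ∈ s
      · rw [hl p hp, hl' p hp]
      · exact congrFun h ⟨p, hp⟩
    rw [Fintype.card_fun, Fintype.card_subtype_compl, Fintype.card_coe] at h1
    have h2 : s.card ≤ Fintype.card P := card_le_univ _
    have hW0 : (0 : ℝ) ≤ Fintype.card W := by positivity
    calc _ ≤ ((Fintype.card W : ℝ) ^ (Fintype.card P - s.card)) * (Fintype.card W : ℝ) ^ s.card := by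
          apply mul_le_mul _ (pow_le_pow_left₀ (by linarith) hW _) (by positivity) (by positivity)
          have : (univ.filter (fun l : P → W => ∀ p ∈ s, l p = g p)).card
              ≤ Fintype.card W ^ (Fintype.card P - s.card) := h1
          have h4 : (((univ.filter (fun l : P → W => ∀ p ∈ s, l p = g p)).card : ℕ) : ℝ)
              ≤ ((Fintype.card W ^ (Fintype.card P - s.card) : ℕ) : ℝ) := by exact_mod_cast this
          push_cast at h4
          convert h4 using 2
      _ = (Fintype.card W : ℝ) ^ Fintype.card P := by rw [← pow_add]; congr 1; omega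
      _ = _ := by rw [card_univ, Fintype.card_fun]; push_cast; rfl
  · intro s
    unfold majO TT
    simp only [pow_zero, mul_one]
    apply hlen
    intro a
    simp [hdom]
  · intro s l _ o ho
    refine ⟨ho, ?_⟩
    rw [hL o ho]
    intro p w c h
    simp [c₀] at h
  · intro s o ho p a h
    simp [c₀] at h
  · intro s l _ v _ a _
    refine ⟨(a, c₀, 0), hmemL a, rfl, ?_⟩
    intro p w c h
    simp [c₀] at h
  · intro l _
    have h1 : wtO L ≤ 2 ^ m := by
      unfold wtO
      exact hlen _ (fun a => by simp)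
    have h0 := wtO_nonneg L
    rw [pow_zero, mul_one]
    calc wtO L * wtO L ≤ 2 ^ m * 2 ^ m := mul_le_mul h1 h1 h0 (by positivity)
      _ = _ := by ring
  · rw [hdom, range_zero, prod_empty, card_univ, Fintype.card_fun]
    simp

/-- **Core.** -/
theorem core [Fintype S] (T : S → S → Tree P W) {b d m r : ℕ} (hm : 1 ≤ m)
    (hS : Fintype.card S ≤ 2 ^ m) (hd : ∀ a a', (T a a').AtMost d)
    (hW : Fintype.card W = b ^ 2)
    (hb : 2 ^ 62 * (8 * m + 1) * (d + 1) ≤ b)
    (hr : 2 ^ (8 * m * (25 * m + 2)) < b ^ (r + 1))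
    (hyp : ∀ (s : Bool) (l : P → W) (v : P → Bool), (univ.filter (fun p => v p ≠ s)).card ≤ r →
      ∃ a, Wins T s a l v) : False := by
  classical
  have hb1 : 1 ≤ b := by
    refine le_trans ?_ hb
    have : 0 < 2 ^ 62 * (8 * m + 1) * (d + 1) := by positivity
    omega
  have hbR : (1 : ℝ) ≤ b := by exact_mod_cast hb1
  have hb0 : (0 : ℝ) < b := by linarith
  set x : ℝ := b / (4 * (8 * m + 1) * (d + 1)) with hx
  have hden : (0 : ℝ) < 4 * (8 * m + 1) * (d + 1) := by positivity
  have hx60 : (2 : ℝ) ^ 60 ≤ x := by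
    rw [hx, le_div_iff₀ hden]
    have : ((2 ^ 62 * (8 * m + 1) * (d + 1) : ℕ) : ℝ) ≤ (b : ℝ) := by exact_mod_cast hb
    push_cast at this
    have e : (2 : ℝ) ^ 60 * (4 * (8 * m + 1) * (d + 1))
        = 4611686018427387904 * (8 * m + 1) * (d + 1) := by ring
    rw [e]
    exact this
  have hx1 : 1 ≤ x := le_trans (by norm_num) hx60
  set K := 8 * m with hK
  have hKm : (K : ℝ) = 8 * m := by rw [hK]; push_cast; ring
  have hWne : Nonempty W := by
    rw [← Fintype.card_pos_iff, hW]; positivity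
  -- all states exist
  have hstates : ∀ i, i ≤ K → Nonempty (St S T x ((2 : ℝ) ^ m) b K i) ∧
      ∀ σ : St S T x ((2 : ℝ) ^ m) b K i, ∀ s, ∀ l ∈ σ.Ω, σ.R s l ≠ [] := by
    have hall : ∀ i, i ≤ K → ∀ σ : St S T x ((2 : ℝ) ^ m) b K i, ∀ s, ∀ l ∈ σ.Ω, σ.R s l ≠ [] := by
      intro i hi σ
      apply σ.nonempty_R hyp
      have h1 := (σ.pow_dom_le hb1 hW).trans (prod_TT_le (m := m) hi)
      have h2 : b ^ (dom σ.c).card < b ^ (r + 1) := by
        refine lt_of_le_of_lt ?_ hr
        exact_mod_cast h1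
      have h3 : 1 < b := by
        refine lt_of_lt_of_le ?_ hb
        have : 1 ≤ (8 * m + 1) * (d + 1) := Nat.one_le_iff_ne_zero.mpr (by positivity)
        calc 1 < 2 ^ 62 * 1 := by norm_num
          _ ≤ 2 ^ 62 * ((8 * m + 1) * (d + 1)) := Nat.mul_le_mul_left _ this
          _ = _ := by ring
      have := (Nat.pow_lt_pow_iff_right h3).mp h2
      omega
    intro i hi
    refine ⟨?_, hall i hi⟩
    induction i with
    | zero =>
      apply exists_start T hbR hS _ hWne
      rw [hW]; push_cast; nlinarith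
    | succ i ih =>
      obtain ⟨σ⟩ := ih (by omega)
      apply σ.step (by omega) hx1 hbR (by positivity) hd _ (hall i (by omega) σ)
      -- (1 + 2 x B)^d ≤ 2
      have hB : 2 * x * BB b K (i + 1) ≤ 1 / (2 * (d + 1)) := by
        unfold BB
        rw [hx, hKm]
        have h1 : (8 * (m : ℝ) + 1 - (i + 1 : ℕ)) ≤ 8 * m + 1 := by
          have : (0 : ℝ) ≤ ((i + 1 : ℕ) : ℝ) := by positivity
          linarith
        have e : 2 * ((b : ℝ) / (4 * (8 * m + 1) * (d + 1))) * ((8 * m + 1 - (i + 1 : ℕ)) / b)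
            = (8 * m + 1 - (i + 1 : ℕ)) / ((8 * m + 1) * (2 * (d + 1))) := by
          field_simp
          ring
        rw [e, div_le_div_iff₀ (by positivity) (by positivity)]
        have h2 : (0 : ℝ) < 2 * (d + 1) := by positivity
        nlinarith
      have hBn : 0 ≤ 2 * x * BB b K (i + 1) := by
        unfold BB
        have h1 : ((i + 1 : ℕ) : ℝ) ≤ K := by exact_mod_cast hi
        have h2 : 0 ≤ ((K : ℝ) + 1 - (i + 1 : ℕ)) / b := div_nonneg (by linarith) hb0.le
        positivity
      have hd1 : (0 : ℝ) < d + 1 := by positivity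
      calc (1 + 2 * x * BB b K (i + 1)) ^ d ≤ (1 + 1 / (2 * (d + 1))) ^ d :=
            pow_le_pow_left₀ (by linarith) (by linarith) _
        _ ≤ (Real.exp (1 / (2 * (d + 1)))) ^ d := by
            apply pow_le_pow_left₀ (by positivity)
            have := Real.add_one_le_exp (1 / (2 * ((d : ℝ) + 1)))
            linarith
        _ = Real.exp (d * (1 / (2 * (d + 1)))) := by rw [← Real.exp_nat_mul]
        _ ≤ Real.exp (1 / 2) := by
            apply Real.exp_le_exp.mpr
            rw [mul_one_div, div_le_div_iff₀ (by positivity) (by norm_num)]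
            nlinarith
        _ ≤ 2 := by
            have h1 := Real.exp_one_lt_d9
            have h2 : Real.exp (1 / 2) ^ 2 = Real.exp 1 := by
              rw [← Real.exp_nat_mul]; norm_num
            by_contra hcon
            push Not at hcon
            have h3 : (2 : ℝ) ^ 2 < Real.exp (1 / 2) ^ 2 :=
              pow_lt_pow_left₀ hcon (by norm_num) (by norm_num)
            rw [h2] at h3
            linarith
  obtain ⟨⟨σ⟩, hne⟩ := hstates K (le_refl _)
  -- a map for which all objects have few finds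
  have hTK : 0 < TT ((2 : ℝ) ^ m) K := by unfold TT; positivity
  obtain ⟨G, hGΩ, hGcard, hG⟩ := good_half σ.Ω (fun s l => Sup x 0 (dom σ.c) (σ.O s) l)
    (fun s l => Sup_nonneg (by linarith) (le_refl _) _ _ _) hTK (fun s => by
      refine le_trans (avg_Sup hb0 (le_refl _) (by linarith) σ.spr (σ.O s)) ?_
      have e : 1 / (b : ℝ) + 0 = BB b K K := by unfold BB; ring
      rw [e]
      exact mul_le_mul_of_nonneg_left (σ.mj s) (by positivity))
  have hGne : G.Nonempty := by
    have : (0 : ℝ) < σ.Ω.card := by exact_mod_cast card_pos.mpr σ.ne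
    have h : (0 : ℝ) < G.card := by linarith
    exact card_pos.mp (by exact_mod_cast h)
  obtain ⟨l, hlG⟩ := hGne
  have hl := hGΩ hlG
  have hTKval : TT ((2 : ℝ) ^ m) K = 2 ^ (25 * m) := by
    unfold TT
    rw [hK]
    have : (8 : ℝ) ^ (8 * m) = 2 ^ (24 * m) := by
      rw [show (8 : ℝ) = 2 ^ 3 by norm_num, ← pow_mul]; congr 1; ring
    rw [this, ← pow_add]; congr 1; ring
  have hlow : ∀ s, 1 / (2 : ℝ) ^ (25 * m + 2) ≤ wtO (σ.R s l) ^ 20 := by
    intro s
    obtain ⟨o, ho⟩ := List.exists_mem_of_ne_nil _ (hne σ s l hl)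
    obtain ⟨hoO, hoin⟩ := σ.sub s l hl o ho
    -- x ^ n ≤ Sup
    have h1 : x ^ o.2.2 ≤ Sup x 0 (dom σ.c) (σ.O s) l := by
      have h2 : x ^ o.2.2 ≤ x ^ o.2.2 * ∑ t ∈ (dom o.2.1 \ dom σ.c).powerset,
          (if ∀ p ∈ t, LocAt o.2.1 l p then (0 : ℝ) ^ ((dom o.2.1 \ dom σ.c).card - t.card)
            else 0) := by
        have h3 : (1 : ℝ) ≤ ∑ t ∈ (dom o.2.1 \ dom σ.c).powerset,
          (if ∀ p ∈ t, LocAt o.2.1 l p then (0 : ℝ) ^ ((dom o.2.1 \ dom σ.c).card - t.card)
            else 0) := by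
          calc (1 : ℝ) = (if ∀ p ∈ (dom o.2.1 \ dom σ.c), LocAt o.2.1 l p then
                (0 : ℝ) ^ ((dom o.2.1 \ dom σ.c).card - (dom o.2.1 \ dom σ.c).card) else 0) := by
                rw [if_pos (show ∀ p ∈ dom o.2.1 \ dom σ.c, LocAt o.2.1 l p from
                  fun p _ => hoin p)]
                simp
            _ ≤ _ := by
                apply single_le_sum (f := fun t => if ∀ p ∈ t, LocAt o.2.1 l p then
                  (0 : ℝ) ^ ((dom o.2.1 \ dom σ.c).card - t.card) else 0) _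
                  (mem_powerset.mpr (Subset.refl _))
                intro t _
                split
                · positivity
                · exact le_refl _
        have h4 : 0 ≤ x ^ o.2.2 := by positivity
        nlinarith
      refine le_trans h2 ?_
      unfold Sup
      apply List.single_le_sum
      · intro y hy
        simp only [List.mem_map] at hy
        obtain ⟨o₁, -, rfl⟩ := hy
        apply mul_nonneg (by positivity)
        apply sum_nonneg
        intro t _
        split
        · positivity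
        · exact le_refl _
      · simp only [List.mem_map]
        refine ⟨o, hoO, ?_⟩
        congr!
    have h5 : x ^ o.2.2 ≤ 4 * 2 ^ (25 * m) := by
      have := hG l hlG s
      rw [hTKval] at this
      exact h1.trans this
    have h6 : ((8 : ℝ) ^ 20) ^ o.2.2 ≤ 4 * 2 ^ (25 * m) := by
      refine le_trans (pow_le_pow_left₀ (by positivity) ?_ _) h5
      refine le_trans ?_ hx60
      norm_num
    have h7 : (1 / 8 : ℝ) ^ o.2.2 ≤ wtO (σ.R s l) := by
      unfold wtO
      apply List.single_le_sum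
      · intro y hy
        simp only [List.mem_map] at hy
        obtain ⟨o₁, -, rfl⟩ := hy
        positivity
      · simp only [List.mem_map]
        exact ⟨o, ho, rfl⟩
    calc 1 / (2 : ℝ) ^ (25 * m + 2) = 1 / (4 * 2 ^ (25 * m)) := by rw [pow_add]; ring
      _ ≤ 1 / ((8 : ℝ) ^ 20) ^ o.2.2 := one_div_le_one_div_of_le (by positivity) h6
      _ = ((1 / 8 : ℝ) ^ o.2.2) ^ 20 := by
          rw [← pow_mul, ← pow_mul, one_div, one_div, inv_pow, mul_comm]
      _ ≤ _ := pow_le_pow_left₀ (by positivity) h7 _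
  have hpot := σ.pot l hl
  have h58 : ((5 : ℝ) / 8) ^ K ≤ 1 / 2 ^ (5 * m) := by
    rw [hK, pow_mul, pow_mul, one_div, ← inv_pow]
    apply pow_le_pow_left₀ (by positivity)
    norm_num
  have hup : wtO (σ.R true l) * wtO (σ.R false l) ≤ 1 / 2 ^ (3 * m) := by
    calc _ ≤ _ := hpot
      _ ≤ ((2 : ℝ) ^ m) ^ 2 * (1 / 2 ^ (5 * m)) := mul_le_mul_of_nonneg_left h58 (by positivity)
      _ = 1 / 2 ^ (3 * m) := by
          rw [← pow_mul, mul_one_div, div_eq_div_iff (by positivity) (by positivity), one_mul,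
            ← pow_add]
          congr 1; ring
  have hup20 : (wtO (σ.R true l) * wtO (σ.R false l)) ^ 20 ≤ 1 / 2 ^ (60 * m) := by
    calc _ ≤ (1 / (2 : ℝ) ^ (3 * m)) ^ 20 :=
          pow_le_pow_left₀ (mul_nonneg (wtO_nonneg _) (wtO_nonneg _)) hup _
      _ = _ := by rw [one_div, one_div, inv_pow, ← pow_mul]; congr 2; ring
  have hlow20 : 1 / (2 : ℝ) ^ (50 * m + 4)
      ≤ (wtO (σ.R true l) * wtO (σ.R false l)) ^ 20 := by
    rw [mul_pow]
    calc 1 / (2 : ℝ) ^ (50 * m + 4)
        = (1 / (2 : ℝ) ^ (25 * m + 2)) * (1 / (2 : ℝ) ^ (25 * m + 2)) := by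
          rw [one_div_mul_one_div, ← pow_add]; congr 2; ring
      _ ≤ _ := mul_le_mul (hlow true) (hlow false) (by positivity)
          (pow_nonneg (wtO_nonneg _) _)
  have hfin := hlow20.trans hup20
  have hlt : 1 / (2 : ℝ) ^ (60 * m) < 1 / (2 : ℝ) ^ (50 * m + 4) := by
    apply one_div_lt_one_div_of_lt (by positivity)
    exact pow_lt_pow_right₀ (by norm_num) (by omega)
  linarith

end Pool.Agent.H.MP_7934a7_lc.helper50
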